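import Pool.Agent.H96EX.Fn
import Pool.Agent.Helper77.LW.Main

/-!
# The base with the true exponential map on all algebraic numbers
-/

open Set Complex Cardinal

namespace Pool.Agent.H96EX

open Pool.Agent.H96RS

variable {κ : Prop}

/-- Lindemann-Weierstrass in terms of the matroid rank -/
theorem finrank_le_of_exp (V : Submodule ℚ ℂ) [FiniteDimensional ℚ V]
    (hV : ∀ a ∈ V, IsAlgebraic ℚ a) {S : Set ℂ} (h : ∀ a ∈ V, exp a ∈ Mt.closure S) :
    (Module.finrank ℚ V : ℕ∞) ≤ Mt.eRk S := by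
  set b := Module.finBasis ℚ V with hb
  have hli : LinearIndependent ℚ (fun i => ((b i : V) : ℂ)) :=
    b.linearIndependent.map' V.subtype (Submodule.ker_subtype V)
  have hai := Pool.Agent.Helper77.LW.algebraicIndependent_exp (fun i => ((b i : V) : ℂ)) (fun i => hV _ (b i).2) hli
  set x : Fin (Module.finrank ℚ V) → ℂ := fun i => exp ((b i : V) : ℂ) with hx
  have hind : Mt.Indep (range x) := by
    have h1 : AlgebraicIndependent ℚ ((↑) : range x → ℂ) := hai.coe_range
    exact h1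
  have h2 : Mt.eRk (range x) = (Module.finrank ℚ V : ℕ∞) := by
    rw [hind.eRk_eq_encard, ← image_univ, hai.injective.encard_image]
    simp
  rw [← h2, ← Mt.eRk_closure_eq S]
  apply Mt.eRk_mono
  rintro _ ⟨i, rfl⟩
  exact h _ (b i).2

theorem alg_conj {a : ℂ} (h : IsAlgebraic ℚ a) : IsAlgebraic ℚ (starRingEnd ℂ a) :=
  h.algHom ((starRingEnd ℂ).toRatAlgHom)

theorem alg_smul {a : ℂ} (q : ℚ) (h : IsAlgebraic ℚ a) : IsAlgebraic ℚ (q • a) := by
  rw [Rat.smul_def]
  exact (isAlgebraic_algebraMap (R := ℚ) (A := ℂ) q).mul h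

/-- the algebraic numbers with the identity -/
noncomputable def Diag : Submodule ℚ (ℂ × ℂ) where
  carrier := {v | IsAlgebraic ℚ v.1 ∧ v.2 = v.1}
  add_mem' := by
    rintro v w ⟨h1, h2⟩ ⟨h3, h4⟩
    exact ⟨h1.add h3, by rw [Prod.snd_add, Prod.fst_add, h2, h4]⟩
  zero_mem' := ⟨isAlgebraic_zero, rfl⟩
  smul_mem' := by
    rintro q v ⟨h1, h2⟩
    exact ⟨alg_smul q h1, by rw [Prod.smul_snd, Prod.smul_fst, h2]⟩

/-- the base: the identity on the algebraic numbers, and `ω ↦ 2 π i` -/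
noncomputable def GB (ω : ℂ) : Submodule ℚ (ℂ × ℂ) :=
  Diag ⊔ Submodule.span ℚ {((ω, 2 * Real.pi * I) : ℂ × ℂ)}

theorem exp_two_pi_cl {S : Set ℂ} (r : ℚ) : exp (r • (2 * Real.pi * I : ℂ)) ∈ Mt.closure S := by
  refine exp_smul_mem r ?_
  rw [exp_two_pi_mul_I]
  have := cl_rat (S := S) 1
  rwa [Rat.cast_one] at this

theorem alg_eq_zero_of_exp {a : ℂ} (ha : IsAlgebraic ℚ a) (h : exp a ∈ Mt.closure ∅) : a = 0 := by
  by_contra ha0
  have h1 := finrank_le_of_exp (Submodule.span ℚ {a}) (S := ∅) (by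
      intro x hx
      obtain ⟨q, rfl⟩ := Submodule.mem_span_singleton.1 hx
      exact alg_smul q ha) (by
      intro x hx
      obtain ⟨q, rfl⟩ := Submodule.mem_span_singleton.1 hx
      exact exp_smul_mem q h)
  rw [finrank_span_singleton ha0, Matroid.eRk_empty] at h1
  simp at h1

theorem finrank_map_fst {Y : Submodule ℚ (ℂ × ℂ)} (hY : Y ≤ Diag) :
    Module.finrank ℚ (Y.map (LinearMap.fst ℚ ℂ ℂ)) = Module.finrank ℚ Y := by
  refine LinearEquiv.finrank_eq (LinearEquiv.ofBijective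
    ((LinearMap.fst ℚ ℂ ℂ).submoduleMap Y) ⟨?_, LinearMap.submoduleMap_surjective _ _⟩).symm
  rintro ⟨v, hv⟩ ⟨w, hw⟩ h
  have h1 : v.1 = w.1 := congrArg Subtype.val h
  have h2 := (hY hv).2
  have h3 := (hY hw).2
  exact Subtype.ext (Prod.ext h1 (by rw [h2, h3, h1]))

theorem finrank_succ_le {W : Submodule ℚ ℂ} [FiniteDimensional ℚ W] {a : ℂ} (ha : a ∉ W) :
    Module.finrank ℚ W + 1 ≤ Module.finrank ℚ (W ⊔ Submodule.span ℚ {a} : Submodule ℚ ℂ) := by
  refine Submodule.finrank_lt_finrank_of_lt (lt_of_le_of_ne le_sup_left ?_)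
  intro h
  apply ha
  rw [h]
  exact (le_sup_right : Submodule.span ℚ {a} ≤ _) (Submodule.mem_span_singleton_self a)

theorem baseB_good {ω : ℂ} (hω : ω ∉ Mt.closure ∅) (hωc : starRingEnd ℂ ω = -ω)
    (he : ((Real.exp 1 : ℝ) : ℂ) ∈ Mt.closure {ω}) (hκ : κ) :
    Good κ ω (Real.exp 1) (GB ω) := by
  set b : ℂ × ℂ := (ω, 2 * Real.pi * I) with hb
  have hdec : ∀ v ∈ GB ω, ∃ a : ℂ, ∃ q : ℚ, IsAlgebraic ℚ a ∧
      v = (a + q • ω, a + q • (2 * Real.pi * I)) := by
    intro v hv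
    obtain ⟨u, hu, q, rfl⟩ := mem_dec hv
    refine ⟨u.1, q, hu.1, ?_⟩
    ext1
    · simp
    · simp [hu.2]
  have hmk : ∀ a : ℂ, ∀ q : ℚ, IsAlgebraic ℚ a →
      ((a + q • ω, a + q • (2 * Real.pi * I)) : ℂ × ℂ) ∈ GB ω := by
    intro a q ha
    have h1 : ((a + q • ω, a + q • (2 * Real.pi * I)) : ℂ × ℂ) = (a, a) + q • b := by
      ext1 <;> simp [hb]
    rw [h1]
    exact Submodule.add_mem_sup ⟨ha, rfl⟩
      (Submodule.smul_mem _ _ (Submodule.mem_span_singleton_self _))
  have hrω : ∀ (a : ℂ) (q : ℚ), IsAlgebraic ℚ a → a + q • ω ∈ Mt.closure ∅ → q = 0 := by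
    intro a q ha h
    by_contra hq
    apply hω
    refine of_smul_mem hq ?_
    have : q • ω = (a + q • ω) - a := by ring
    rw [this]
    exact cl_sub h (cl_alg ha)
  have h0mem : (0 : ℂ) ∈ Mt.closure ∅ := cl_alg isAlgebraic_zero
  have h1mem : (1 : ℂ) ∈ Mt.closure ∅ := cl_alg isAlgebraic_one
  have hom : b ∈ GB ω := by
    have := hmk 0 1 isAlgebraic_zero
    simpa using this
  refine ⟨?_, ?_, ?_, hom, ?_, ?_⟩
  · intro v hv hv0
    obtain ⟨a, q, ha, rfl⟩ := hdec v hv
    have hq : q = 0 := hrω a q ha (by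
      have : a + q • ω = 0 := hv0
      rw [this]; exact h0mem)
    subst hq
    have : a + (0 : ℚ) • ω = 0 := hv0
    rw [zero_smul, add_zero] at this
    simp [this]
  · intro v hv
    obtain ⟨a, q, ha, rfl⟩ := hdec v hv
    have h2 : ∀ (t : ℚ) (z : ℂ), starRingEnd ℂ (t • z) = t • starRingEnd ℂ z := by
      intro t z; rw [Rat.smul_def, Rat.smul_def, map_mul]; simp
    have h3 : starRingEnd ℂ (2 * Real.pi * I) = -(2 * Real.pi * I) := by
      apply Complex.ext <;> simp
    have h1 := hmk (starRingEnd ℂ a) (-q) (alg_conj ha)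
    convert h1 using 2
    · simp only [map_add, h2, hωc]; rw [smul_neg, neg_smul]
    · simp only [map_add, h2, h3]; rw [smul_neg, neg_smul]
  · rw [Real.log_exp]
    have := hmk 1 0 isAlgebraic_one
    simpa using this
  · intro v hv h1
    obtain ⟨a, q, ha, rfl⟩ := hdec v hv
    have h1' : exp (a + q • (2 * Real.pi * I)) = 1 := h1
    have ha0 : a = 0 := by
      refine alg_eq_zero_of_exp ha ?_
      have : exp a = exp (a + q • (2 * Real.pi * I)) * (exp (q • (2 * Real.pi * I : ℂ)))⁻¹ := by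
        rw [exp_add, mul_assoc, mul_inv_cancel₀ (exp_ne_zero _), mul_one]
      rw [this, h1', one_mul]
      exact cl_inv (exp_two_pi_cl q)
    subst ha0
    rw [zero_add, exp_eq_one_iff] at h1'
    obtain ⟨k, hk⟩ := h1'
    refine ⟨k, ?_⟩
    have h3 : (2 * (Real.pi : ℂ) * I) ≠ 0 := Complex.two_pi_I_ne_zero
    have h4 : (q : ℂ) * (2 * Real.pi * I) = (k : ℂ) * (2 * Real.pi * I) := by
      rw [← hk, Rat.smul_def]
    have h5 := mul_right_cancel₀ h3 h4
    have h6 : q = k := by exact_mod_cast h5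
    show (0 : ℂ) + q • ω = (k : ℚ) • ω
    rw [h6, zero_add]
  · intro Y hY hYf
    by_cases hD : Y ≤ Diag
    · have hf : FiniteDimensional ℚ (Y.map (LinearMap.fst ℚ ℂ ℂ)) := inferInstance
      have h1 := finrank_le_of_exp (Y.map (LinearMap.fst ℚ ℂ ℂ)) (S := Nums Y) (by
        rintro _ ⟨v, hv, rfl⟩
        exact (hD hv).1) (by
        rintro _ ⟨v, hv, rfl⟩
        refine nums_sub Y ⟨v, hv, Or.inr ?_⟩
        rw [(hD hv).2]; rfl)
      rw [finrank_map_fst hD] at h1
      exact h1.trans le_self_add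
    · obtain ⟨v0, hv0, hv0D⟩ := SetLike.not_le_iff_exists.1 hD
      obtain ⟨a0, q0, ha0, hv0e⟩ := hdec v0 (hY hv0)
      have hq0 : q0 ≠ 0 := by
        rintro rfl
        apply hv0D
        rw [hv0e, zero_smul, zero_smul, add_zero]
        exact ⟨ha0, rfl⟩
      set a1 : ℂ := q0⁻¹ • a0 with ha1
      have ha1a : IsAlgebraic ℚ a1 := alg_smul _ ha0
      set v1 : ℂ × ℂ := (a1 + ω, a1 + 2 * Real.pi * I) with hv1
      have hv1Y : v1 ∈ Y := by
        have h1 : v1 = q0⁻¹ • v0 := by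
          rw [hv0e, hv1]
          ext1
          · simp only [Prod.smul_fst, smul_add, smul_smul, inv_mul_cancel₀ hq0, one_smul, ha1]
          · simp only [Prod.smul_snd, smul_add, smul_smul, inv_mul_cancel₀ hq0, one_smul, ha1]
        rw [h1]
        exact Y.smul_mem _ hv0
      have hYle : Y ≤ Diag ⊔ Submodule.span ℚ {v1} := by
        intro v hv
        obtain ⟨a, q, ha, rfl⟩ := hdec v (hY hv)
        have h1 : ((a + q • ω, a + q • (2 * Real.pi * I)) : ℂ × ℂ) =
            (a - q • a1, a - q • a1) + q • v1 := by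
          rw [hv1]
          ext1
          · simp only [Prod.fst_add, Prod.smul_fst, smul_add]; ring
          · simp only [Prod.snd_add, Prod.smul_snd, smul_add]; ring
        rw [h1]
        exact Submodule.add_mem_sup ⟨ha.sub (alg_smul q ha1a), rfl⟩
          (Submodule.smul_mem _ _ (Submodule.mem_span_singleton_self _))
      have hfr := finrank_le_inf hYle
      set Y0 : Submodule ℚ (ℂ × ℂ) := Y ⊓ Diag with hY0
      have hY0f : FiniteDimensional ℚ Y0 := Submodule.finiteDimensional_of_le inf_le_left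
      set V0 : Submodule ℚ ℂ := Y0.map (LinearMap.fst ℚ ℂ ℂ) with hV0
      have hV0f : FiniteDimensional ℚ V0 := inferInstance
      have hV0r : Module.finrank ℚ V0 = Module.finrank ℚ Y0 := finrank_map_fst inf_le_right
      have hV0a : ∀ a ∈ V0, IsAlgebraic ℚ a := by
        rintro _ ⟨v, hv, rfl⟩; exact hv.2.1
      have hV0Y : ∀ a ∈ V0, ((a, a) : ℂ × ℂ) ∈ Y := by
        rintro _ ⟨v, hv, rfl⟩
        have : ((v.1, v.1) : ℂ × ℂ) = v := by
          ext1
          · rfl
          · exact hv.2.2.symm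
        show ((v.1, v.1) : ℂ × ℂ) ∈ Y
        rw [this]; exact hv.1
      have hV0e : ∀ a ∈ V0, exp a ∈ Mt.closure (Nums Y) := fun a ha =>
        nums_sub Y ⟨(a, a), hV0Y a ha, Or.inr rfl⟩
      have hωcl : ω ∈ Mt.closure (Nums Y) := by
        have h1 : ω = (a1 + ω) - a1 := by ring
        rw [h1]
        exact cl_sub (nums_sub Y ⟨v1, hv1Y, Or.inl rfl⟩) (cl_alg ha1a)
      have hexpa1 : exp a1 ∈ Mt.closure (Nums Y) := by
        have h1 : exp a1 = exp v1.2 := by
          rw [hv1]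
          show exp a1 = exp (a1 + 2 * Real.pi * I)
          rw [exp_add, exp_two_pi_mul_I, mul_one]
        rw [h1]
        exact nums_sub Y ⟨v1, hv1Y, Or.inr rfl⟩
      have hexp1 : exp (1 : ℂ) ∈ Mt.closure (Nums Y) := by
        have h1 : exp (1 : ℂ) = ((Real.exp 1 : ℝ) : ℂ) := by
          rw [ofReal_exp, ofReal_one]
        rw [h1]
        have h2 := Mt.closure_subset_closure (singleton_subset_iff.2 hωcl) he
        rwa [Mt.closure_closure] at h2
      have hadj : ∀ c : ℂ, IsAlgebraic ℚ c → exp c ∈ Mt.closure (Nums Y) → c ∉ V0 →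
          (Module.finrank ℚ Y : ℕ∞) ≤ Mt.eRk (Nums Y) := by
        intro c hc hce hcV
        have h1 := finrank_le_of_exp (V0 ⊔ Submodule.span ℚ {c}) (S := Nums Y) (by
          intro x hx
          obtain ⟨u, hu, y, hy, rfl⟩ := Submodule.mem_sup.1 hx
          obtain ⟨q, rfl⟩ := Submodule.mem_span_singleton.1 hy
          exact (hV0a u hu).add (alg_smul q hc)) (by
          intro x hx
          obtain ⟨u, hu, y, hy, rfl⟩ := Submodule.mem_sup.1 hx
          obtain ⟨q, rfl⟩ := Submodule.mem_span_singleton.1 hy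
          rw [exp_add]
          exact cl_mul (hV0e u hu) (exp_smul_mem q hce))
        have h2 := finrank_succ_le hcV
        refine le_trans ?_ h1
        exact_mod_cast (by omega : Module.finrank ℚ Y ≤
          Module.finrank ℚ (V0 ⊔ Submodule.span ℚ {c} : Submodule ℚ ℂ))
      by_cases hc1 : a1 ∈ V0
      · by_cases hc2 : (1 : ℂ) ∈ V0
        · have h3 : dl κ ω Y = 1 := by
            unfold dl
            rw [if_pos]
            refine ⟨hκ, ⟨(1, 1), hV0Y 1 hc2, rfl⟩, ⟨v1 - (a1, a1), Y.sub_mem hv1Y (hV0Y _ hc1), ?_⟩⟩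
            rw [hv1]; simp
          have h1 := finrank_le_of_exp V0 hV0a hV0e
          rw [h3]
          calc (Module.finrank ℚ Y : ℕ∞) ≤ ((Module.finrank ℚ V0 + 1 : ℕ) : ℕ∞) := by
                exact_mod_cast (by omega : Module.finrank ℚ Y ≤ Module.finrank ℚ V0 + 1)
            _ = (Module.finrank ℚ V0 : ℕ∞) + 1 := by push_cast; rfl
            _ ≤ _ := by gcongr
        · exact (hadj 1 isAlgebraic_one hexp1 hc2).trans le_self_add
      · exact (hadj a1 ha1a hexpa1 hc1).trans le_self_add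

theorem Diag_card : #Diag ≤ ℵ₀ := by
  have h1 : {a : ℂ | IsAlgebraic ℚ a}.Countable := Algebraic.countable ℚ ℂ
  refine (Cardinal.mk_le_of_injective (f := fun v : Diag =>
    (⟨v.1.1, v.2.1⟩ : {a : ℂ | IsAlgebraic ℚ a})) ?_).trans (Cardinal.mk_le_aleph0_iff.2 h1)
  rintro ⟨v, hv⟩ ⟨w, hw⟩ h
  have h1 : v.1 = w.1 := congrArg Subtype.val h
  exact Subtype.ext (Prod.ext h1 (by rw [hv.2, hw.2, h1]))

theorem GB_card (ω : ℂ) : #(GB ω) ≤ ℵ₀ :=
  (sup_span_card _ _).trans (max_le Diag_card le_rfl)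

end Pool.Agent.H96EX
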