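import Pool.Agent.H96EX.Gr

open Set Complex

namespace Pool.Agent.H96EX

open Pool.Agent.H96RS

variable {κ : Prop}

/-- the base: `1` and `ω` -/
theorem base_good {ω : ℂ} {τ : ℝ} (hω : ω ∉ Mt.closure ∅) (hωc : starRingEnd ℂ ω = -ω) (hτ0 : 0 < τ)
    (hτ : (τ : ℂ) ∉ Mt.closure ∅) (hκ : ¬ κ → (τ : ℂ) ∉ Mt.closure {ω}) :
    Good κ ω τ (Submodule.span ℚ {((1, ((Real.log τ : ℝ) : ℂ)) : ℂ × ℂ)} ⊔
      Submodule.span ℚ {((ω, 2 * Real.pi * I) : ℂ × ℂ)}) := by
  set a : ℂ × ℂ := (1, ((Real.log τ : ℝ) : ℂ)) with ha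
  set b : ℂ × ℂ := (ω, 2 * Real.pi * I) with hb
  have hone : ∀ q : ℚ, q • (1 : ℂ) ∈ Mt.closure ∅ := fun q => by
    rw [Rat.smul_def, mul_one]; exact cl_rat _
  have hexpl : exp ((Real.log τ : ℝ) : ℂ) = τ := by
    rw [← ofReal_exp, Real.exp_log hτ0]
  have hdec : ∀ v ∈ Submodule.span ℚ {a} ⊔ Submodule.span ℚ {b}, ∃ q r : ℚ, v = q • a + r • b := by
    intro v hv
    obtain ⟨u, hu, r, rfl⟩ := mem_dec hv
    obtain ⟨q, rfl⟩ := Submodule.mem_span_singleton.1 hu
    exact ⟨q, r, rfl⟩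
  have hfst : ∀ q r : ℚ, (q • a + r • b).1 = q • (1 : ℂ) + r • ω := fun q r => by simp [ha, hb]
  have hsnd : ∀ q r : ℚ, (q • a + r • b).2 = q • ((Real.log τ : ℝ) : ℂ) + r • (2 * Real.pi * I) :=
    fun q r => by simp [ha, hb]
  have hrω : ∀ q r : ℚ, (q • a + r • b).1 ∈ Mt.closure ∅ → r = 0 := by
    intro q r h
    by_contra hr
    apply hω
    refine of_smul_mem hr ?_
    have : r • ω = (q • a + r • b).1 - q • (1 : ℂ) := by rw [hfst]; abel
    rw [this]
    exact cl_sub h (hone q)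
  have hexp2 : ∀ r : ℚ, exp (r • (2 * Real.pi * I : ℂ)) ∈ Mt.closure ∅ := by
    intro r
    refine exp_smul_mem r ?_
    rw [exp_two_pi_mul_I]
    have := cl_rat (S := ∅) 1
    rwa [Rat.cast_one] at this
  have hqτ : ∀ q r : ℚ, exp (q • a + r • b).2 ∈ Mt.closure ∅ → q = 0 := by
    intro q r h
    by_contra hq
    apply hτ
    rw [← hexpl]
    refine of_exp_smul_mem hq ?_
    have : exp (q • ((Real.log τ : ℝ) : ℂ)) = exp (q • a + r • b).2 * (exp (r • (2 * Real.pi * I : ℂ)))⁻¹ := by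
      rw [hsnd, exp_add, mul_assoc, mul_inv_cancel₀ (exp_ne_zero _), mul_one]
    rw [this]
    exact cl_mul h (cl_inv (hexp2 r))
  have h0mem : (0 : ℂ) ∈ Mt.closure ∅ := by
    have := cl_rat (S := ∅) 0
    rwa [Rat.cast_zero] at this
  have h1mem : (1 : ℂ) ∈ Mt.closure ∅ := by
    have := cl_rat (S := ∅) 1
    rwa [Rat.cast_one] at this
  have haG : a ∈ Submodule.span ℚ {a} ⊔ Submodule.span ℚ {b} :=
    (le_sup_left : Submodule.span ℚ {a} ≤ _) (Submodule.mem_span_singleton_self a)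
  have hbG : b ∈ Submodule.span ℚ {a} ⊔ Submodule.span ℚ {b} :=
    (le_sup_right : Submodule.span ℚ {b} ≤ _) (Submodule.mem_span_singleton_self b)
  refine ⟨?_, ?_, haG, hbG, ?_, ?_⟩
  · intro v hv hv0
    obtain ⟨q, r, rfl⟩ := hdec v hv
    have hr : r = 0 := hrω q r (by rw [hv0]; exact h0mem)
    subst hr
    rw [hfst, zero_smul, add_zero, Rat.smul_def, mul_one] at hv0
    have hq : q = 0 := by exact_mod_cast hv0
    subst hq
    simp
  · intro v hv
    obtain ⟨q, r, rfl⟩ := hdec v hv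
    have h2 : ∀ (t : ℚ) (z : ℂ), starRingEnd ℂ (t • z) = t • starRingEnd ℂ z := by
      intro t z; rw [Rat.smul_def, Rat.smul_def, map_mul]; simp
    have h1 : ((starRingEnd ℂ (q • a + r • b).1, starRingEnd ℂ (q • a + r • b).2) : ℂ × ℂ) =
        q • a + (-r) • b := by
      ext1
      · rw [hfst, hfst, map_add, h2, h2, hωc, map_one, smul_neg, neg_smul]
      · rw [hsnd, hsnd, map_add, h2, h2, conj_ofReal]
        have h3 : starRingEnd ℂ (2 * Real.pi * I) = -(2 * Real.pi * I) := by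
          apply Complex.ext <;> simp
        rw [h3, smul_neg, neg_smul]
    rw [h1]
    exact Submodule.add_mem _ (Submodule.smul_mem _ _ haG) (Submodule.smul_mem _ _ hbG)
  · intro v hv h1
    obtain ⟨q, r, rfl⟩ := hdec v hv
    have hq : q = 0 := hqτ q r (by rw [h1]; exact h1mem)
    subst hq
    rw [hsnd, zero_smul, zero_add, exp_eq_one_iff] at h1
    obtain ⟨k, hk⟩ := h1
    refine ⟨k, ?_⟩
    have h3 : (2 * (Real.pi : ℂ) * I) ≠ 0 := Complex.two_pi_I_ne_zero
    have h4 : (r : ℂ) * (2 * Real.pi * I) = (k : ℂ) * (2 * Real.pi * I) := by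
      rw [← hk, Rat.smul_def]
    have h5 := mul_right_cancel₀ h3 h4
    have h6 : r = k := by exact_mod_cast h5
    rw [hfst, h6]; simp
  · intro Y hY hYf
    by_cases hbot : Y = ⊥
    · subst hbot; simp
    · obtain ⟨v, hvY, hv0⟩ := (Submodule.ne_bot_iff Y).1 hbot
      obtain ⟨t, htY, htK⟩ : ∃ t ∈ Nums Y, t ∉ Mt.closure ∅ := by
        obtain ⟨q, r, rfl⟩ := hdec v (hY hvY)
        by_cases hr : r = 0
        · refine ⟨_, ⟨_, hvY, Or.inr rfl⟩, fun hK => hv0 ?_⟩
          rw [hqτ q r hK, hr, zero_smul, zero_smul, add_zero]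
        · exact ⟨_, ⟨_, hvY, Or.inl rfl⟩, fun hK => hr (hrω q r hK)⟩
      have hr : (1 : ℕ∞) ≤ Mt.eRk (Nums Y) := by
        have h1 : Mt.eRk (insert t ∅) = Mt.eRk ∅ + 1 :=
          Mt.eRk_insert_eq_add_one ⟨by simp, htK⟩
        have h2 : Mt.eRk (insert t ∅) ≤ Mt.eRk (Nums Y) := Mt.eRk_mono (by simpa using htY)
        rw [h1, Matroid.eRk_empty, zero_add] at h2
        exact h2
      have hDf : FiniteDimensional ℚ
          (Submodule.span ℚ {a} ⊔ Submodule.span ℚ {b} : Submodule ℚ (ℂ × ℂ)) := by infer_instance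
      have hfin : Module.finrank ℚ
          (Submodule.span ℚ {a} ⊔ Submodule.span ℚ {b} : Submodule ℚ (ℂ × ℂ)) ≤ 2 := by
        have h1 := Submodule.finrank_add_le_finrank_add_finrank
          (Submodule.span ℚ {a}) (Submodule.span ℚ {b})
        have h2 : ∀ y : ℂ × ℂ, Module.finrank ℚ (Submodule.span ℚ {y}) ≤ 1 := by
          intro y
          have := finrank_span_le_card (R := ℚ) ({y} : Set (ℂ × ℂ))
          simpa using this
        have h3 := h2 a
        have h4 := h2 b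
        omega
      by_cases h1 : Module.finrank ℚ Y ≤ 1
      · calc (Module.finrank ℚ Y : ℕ∞) ≤ ((1 : ℕ) : ℕ∞) := by exact_mod_cast h1
          _ ≤ _ := by simpa using hr
          _ ≤ _ := le_self_add
      · have h2 : Y = Submodule.span ℚ {a} ⊔ Submodule.span ℚ {b} :=
          Submodule.eq_of_le_of_finrank_le hY (by omega)
        have h4 : Module.finrank ℚ Y ≤ 2 := (Submodule.finrank_mono hY).trans hfin
        by_cases hk : κ
        · have h3 : dl κ ω Y = 1 := by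
            unfold dl
            rw [if_pos ⟨hk, ⟨a, h2 ▸ haG, rfl⟩, ⟨b, h2 ▸ hbG, rfl⟩⟩]
          rw [h3]
          calc (Module.finrank ℚ Y : ℕ∞) ≤ ((2 : ℕ) : ℕ∞) := by exact_mod_cast h4
            _ = 1 + 1 := by norm_num
            _ ≤ _ := by gcongr
        · have h5 : Mt.eRk (insert (τ : ℂ) (insert ω ∅)) = Mt.eRk ∅ + 1 + 1 := by
            rw [Mt.eRk_insert_eq_add_one ⟨by simp, by simpa using hκ hk⟩,
              Mt.eRk_insert_eq_add_one ⟨by simp, hω⟩]
          have h6 : Mt.eRk (insert (τ : ℂ) (insert ω ∅)) ≤ Mt.eRk (Nums Y) := by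
            apply Mt.eRk_mono
            rintro t (rfl | rfl | h7)
            · exact ⟨a, h2 ▸ haG, Or.inr hexpl.symm⟩
            · exact ⟨b, h2 ▸ hbG, Or.inl rfl⟩
            · exact absurd h7 (by simp)
          rw [h5, Matroid.eRk_empty] at h6
          calc (Module.finrank ℚ Y : ℕ∞) ≤ ((2 : ℕ) : ℕ∞) := by exact_mod_cast h4
            _ = 0 + 1 + 1 := by norm_num
            _ ≤ _ := h6.trans le_self_add

end Pool.Agent.H96EX
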