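import Pool.Agent.H96EX.Gn

open Set Complex
open scoped Matroid

namespace Pool.Agent.H96EX

open Pool.Agent.H96RS

variable {κ : Prop}

/-- the field generated by `C` over the rationals -/
noncomputable abbrev QC (C : Set ℂ) : IntermediateField ℚ ℂ := IntermediateField.adjoin ℚ C

theorem mem_cl_over {C S : Set ℂ} {a : ℂ} :
    IsAlgebraic (IntermediateField.adjoin (QC C) S) a ↔ a ∈ Mt.closure (C ∪ S) := by
  rw [mem_cl, ← IntermediateField.isAlgebraic_adjoin_iff,
    ← IntermediateField.adjoin_adjoin_left ℚ C S]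
  exact Iff.rfl

theorem indep_over_iff {C I : Set ℂ} :
    (AlgebraicIndependent.matroid (QC C) ℂ).Indep I ↔ (Mt ／ C).Indep I := by
  rw [rindep_iff, Matroid.indep_iff_forall_notMem_closure_sdiff (by simp)]
  have h1 : ∀ (e : ℂ) (S : Set ℂ), e ∈ (AlgebraicIndependent.matroid (QC C) ℂ).closure S ↔
      e ∈ Mt.closure (C ∪ S) := by
    intro e S
    rw [AlgebraicIndependent.matroid_closure_eq, ← mem_cl_over,
      IntermediateField.isAlgebraic_adjoin_iff]
    exact Iff.rfl
  constructor
  · intro h i hi hc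
    exact h hi ((h1 _ _).2 hc)
  · intro h i hi hc
    exact h i hi ((h1 _ _).1 hc)

theorem le_rk_of_trdeg {C S : Set ℂ} {r : ℕ}
    (h : (r : Cardinal.{0}) ≤ Algebra.trdeg (QC C) (IntermediateField.adjoin (QC C) S)) :
    (r : ℕ∞) ≤ rk C S := by
  obtain ⟨s, hs⟩ := exists_isTranscendenceBasis (QC C) (IntermediateField.adjoin (QC C) S)
  rw [← hs.cardinalMk_eq_trdeg] at h
  obtain ⟨t, hts, htr⟩ := Cardinal.le_mk_iff_exists_subset.1 h
  have h1 : AlgebraicIndependent (QC C) (fun a : t => ((a : IntermediateField.adjoin (QC C) S) : ℂ)) := by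
    have h2 : AlgebraicIndependent (QC C) (fun a : t => (a : IntermediateField.adjoin (QC C) S)) :=
      hs.1.comp (fun a : t => (⟨a.1, hts a.2⟩ : s)) (fun a b hab => Subtype.ext
        (congrArg (fun c : s => c.1) hab))
    exact h2.map' (f := (IntermediateField.adjoin (QC C) S).val) Subtype.val_injective
  have h3 : (Mt ／ C).Indep ((fun a : IntermediateField.adjoin (QC C) S => (a : ℂ)) '' t) := by
    rw [← indep_over_iff]
    have h4 := h1.coe_range
    have h5 : (range fun a : t => ((a : IntermediateField.adjoin (QC C) S) : ℂ)) =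
        (fun a : IntermediateField.adjoin (QC C) S => (a : ℂ)) '' t := by
      rw [image_eq_range]
    rw [h5] at h4
    exact h4
  have h6 : ((fun a : IntermediateField.adjoin (QC C) S => (a : ℂ)) '' t).encard = (r : ℕ∞) := by
    rw [Function.Injective.encard_image Subtype.val_injective, ← toENat_cardinalMk, htr]
    simp
  have h7 : (fun a : IntermediateField.adjoin (QC C) S => (a : ℂ)) '' t ⊆ Mt.closure (C ∪ S) := by
    rintro _ ⟨a, -, rfl⟩
    rw [← mem_cl_over]
    exact isAlgebraic_algebraMap a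
  rw [← h6, ← h3.eRk_eq_encard]
  exact rk_le_of_subset h7

/-- the field of all numbers algebraic over the field generated by `C` and `y` -/
noncomputable abbrev EC (C : Set ℂ) {k : ℕ} (y : Fin k → ℂ) :
    IntermediateField (IntermediateField.adjoin (QC C) (range y)) ℂ :=
  algebraicClosure (IntermediateField.adjoin (QC C) (range y)) ℂ

theorem exists_copy {C : Set ℂ} {k : ℕ} {y x : Fin k → ℂ} (hy : AlgebraicIndependent (QC C) y)
    (hx : AlgebraicIndependent (QC C) x) :
    ∃ φ : EC C y →ₐ[QC C] ℂ, ∀ u, φ u ∈ Mt.closure (C ∪ range x) := by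
  let e : IntermediateField.adjoin (QC C) (range y) ≃ₐ[QC C] IntermediateField.adjoin (QC C) (range x) :=
    hy.aevalEquivField.symm.trans hx.aevalEquivField
  let f : IntermediateField.adjoin (QC C) (range y) →ₐ[QC C] ℂ :=
    (IntermediateField.adjoin (QC C) (range x)).val.comp e.toAlgHom
  obtain ⟨φ, hφ⟩ := IsAlgClosed.surjective_domRestrict_of_isAlgebraic (K := QC C)
    (L := IntermediateField.adjoin (QC C) (range y)) (M := ℂ) (E := EC C y) f
  refine ⟨φ, fun u => ?_⟩
  rw [← mem_cl_over]
  have hu : IsAlgebraic (IntermediateField.adjoin (QC C) (range y)) u :=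
    Algebra.IsAlgebraic.isAlgebraic u
  refine hu.ringHom_of_comp_eq e φ e.injective ?_
  ext v
  have h1 := congr($hφ v)
  exact h1.symm

theorem rk_copy {C : Set ℂ} {k : ℕ} {y : Fin k → ℂ} (φ : EC C y →ₐ[QC C] ℂ) (S : Set (EC C y)) :
    rk C ((fun a : EC C y => (a : ℂ)) '' S) ≤ rk C (φ '' S) := by
  obtain ⟨I, hI⟩ := (Mt ／ C).exists_isBasis' ((fun a : EC C y => (a : ℂ)) '' S)
  obtain ⟨J, hJS, hJI⟩ := subset_image_iff.1 hI.subset
  have hinj : Function.Injective (fun a : EC C y => (a : ℂ)) := Subtype.val_injective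
  have hφ : Function.Injective φ := φ.toRingHom.injective
  have h1 : AlgebraicIndependent (QC C) (fun a : J => ((a : EC C y) : ℂ)) := by
    have h2 := indep_over_iff.2 hI.indep
    rw [← hJI] at h2
    have h3 : AlgebraicIndependent (QC C)
        ((↑) : ((fun a : EC C y => (a : ℂ)) '' J) → ℂ) := h2
    exact h3.comp (fun a : J => (⟨((a : EC C y) : ℂ), mem_image_of_mem _ a.2⟩ :
      ((fun a : EC C y => (a : ℂ)) '' J))) (fun a b hab => Subtype.ext (hinj (congrArg
        (fun c : ((fun a : EC C y => (a : ℂ)) '' J) => c.1) hab)))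
  have h2 : AlgebraicIndependent (QC C) (fun a : J => (a : EC C y)) :=
    AlgebraicIndependent.of_comp ((EC C y).val.restrictScalars (QC C)) h1
  have h3 : AlgebraicIndependent (QC C) (fun a : J => φ (a : EC C y)) :=
    h2.map' (f := φ) hφ
  have h4 : (Mt ／ C).Indep (φ '' J) := by
    rw [← indep_over_iff]
    have h5 := h3.coe_range
    have h6 : (range fun a : J => φ (a : EC C y)) = φ '' J := by rw [image_eq_range]
    rw [h6] at h5
    exact h5
  calc rk C ((fun a : EC C y => (a : ℂ)) '' S) = I.encard := hI.eRk_eq_encard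
    _ = (φ '' J).encard := by
        rw [← hJI, hinj.encard_image, hφ.encard_image]
    _ ≤ rk C (φ '' S) := h4.encard_le_eRk_of_subset (image_mono hJS)

end Pool.Agent.H96EX
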