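import Pool.Agent.H96EX.St

open Set Complex Cardinal

namespace Pool.Agent.H96EX

open Pool.Agent.H96RS

variable {κ : Prop}

theorem good_sSup {ω : ℂ} {τ : ℝ} {C : Set (Submodule ℚ (ℂ × ℂ))} (hne : C.Nonempty)
    (hdir : DirectedOn (· ≤ ·) C) (h : ∀ G ∈ C, Good κ ω τ G) : Good κ ω τ (sSup C) := by
  have hmem : ∀ {v : ℂ × ℂ}, v ∈ sSup C ↔ ∃ G ∈ C, v ∈ G :=
    Submodule.mem_sSup_of_directed hne hdir
  obtain ⟨G0, hG0⟩ := hne
  refine ⟨?_, ?_, hmem.2 ⟨G0, hG0, (h G0 hG0).one⟩, hmem.2 ⟨G0, hG0, (h G0 hG0).om⟩, ?_, ?_⟩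
  · intro v hv hv0
    obtain ⟨G, hG, hvG⟩ := hmem.1 hv
    exact (h G hG).fn v hvG hv0
  · intro v hv
    obtain ⟨G, hG, hvG⟩ := hmem.1 hv
    exact hmem.2 ⟨G, hG, (h G hG).cj v hvG⟩
  · intro v hv h1
    obtain ⟨G, hG, hvG⟩ := hmem.1 hv
    exact (h G hG).ker v hvG h1
  · intro Y hY hfin
    have hc : IsCompactElement Y := (Submodule.fg_iff_compact Y).1 (Module.Finite.iff_fg.1 hfin)
    rw [CompleteLattice.isCompactElement_iff_le_of_directed_sSup_le] at hc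
    obtain ⟨G, hG, hYG⟩ := hc C ⟨G0, hG0⟩ hdir hY
    exact (h G hG).sch Y hYG hfin

theorem chain_good {ω : ℂ} {τ : ℝ} {ι : Type} [LinearOrder ι] {G0 : Submodule ℚ (ℂ × ℂ)}
    (h0 : Good κ ω τ G0) (F : ι → Submodule ℚ (ℂ × ℂ)) (J : Set ι)
    (hJ : ∀ j ∈ J, Good κ ω τ (F j) ∧ sSup (insert G0 (F '' Iio j)) ≤ F j) :
    DirectedOn (· ≤ ·) (insert G0 (F '' J)) ∧ Good κ ω τ (sSup (insert G0 (F '' J))) := by
  have h1 : ∀ j ∈ J, G0 ≤ F j := fun j hj => (le_sSup (mem_insert _ _)).trans (hJ j hj).2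
  have h2 : ∀ j k, k ∈ J → j < k → F j ≤ F k := fun j k hk hjk =>
    (le_sSup (mem_insert_of_mem _ (mem_image_of_mem F (mem_Iio.2 hjk)))).trans (hJ k hk).2
  have hchain : IsChain (· ≤ ·) (insert G0 (F '' J)) := by
    rintro _ (rfl | ⟨j, hj, rfl⟩) _ (rfl | ⟨k, hk, rfl⟩) hne
    · exact absurd rfl hne
    · exact Or.inl (h1 k hk)
    · exact Or.inr (h1 j hj)
    · rcases lt_trichotomy j k with h | h | h
      · exact Or.inl (h2 j k hk h)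
      · exact absurd (by rw [h]) hne
      · exact Or.inr (h2 k j hj h)
  refine ⟨hchain.directedOn, good_sSup ⟨G0, mem_insert _ _⟩ hchain.directedOn ?_⟩
  rintro _ (rfl | ⟨j, hj, rfl⟩)
  · exact h0
  · exact (hJ j hj).1

end Pool.Agent.H96EX
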