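import Pool.Agent.H96EX.Stp
import Pool.Agent.H96EX.Tr

open Set Complex Cardinal

namespace Pool.Agent.H96EX

open Pool.Agent.H96RS

variable {κ : Prop}

theorem exists_index_of {T : Type} [Nonempty T] (hT : #T ≤ 𝔠) :
    ∃ (ι : Type) (_ : LinearOrder ι) (_ : WellFoundedLT ι) (e : ι → T),
      Function.Surjective e ∧ ∀ i : ι, #(Iio i) < 𝔠 := by
  refine ⟨(𝔠 : Cardinal.{0}).ord.ToType, inferInstance, inferInstance, ?_⟩
  have h1 : #T ≤ #(𝔠 : Cardinal.{0}).ord.ToType := by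
    rw [Cardinal.mk_ord_toType]; exact hT
  obtain ⟨f, hf⟩ := Cardinal.le_def _ _ |>.1 h1
  refine ⟨Function.invFun f, Function.invFun_surjective hf, fun i => ?_⟩
  have := Cardinal.mk_Iio_lt i (by simp)
  rwa [Cardinal.mk_ord_toType] at this

/-- the transfinite construction for a family of at most continuum many tasks -/
theorem exists_limit {ω : ℂ} {τ : ℝ} {G0 : Submodule ℚ (ℂ × ℂ)} (h0 : Good κ ω τ G0)
    (hc0 : #G0 ≤ ℵ₀) {T : Type} [Nonempty T] (hT : #T ≤ 𝔠) (Q : T → Submodule ℚ (ℂ × ℂ) → Prop)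
    (hQ : ∀ t G G', G ≤ G' → Q t G → Q t G')
    (hstep : ∀ (t : T) (G : Submodule ℚ (ℂ × ℂ)), Good κ ω τ G → #G < 𝔠 →
      ∃ G' : Submodule ℚ (ℂ × ℂ), Good κ ω τ G' ∧ G ≤ G' ∧ #G' ≤ max #G ℵ₀ ∧ Q t G') :
    ∃ G : Submodule ℚ (ℂ × ℂ), Good κ ω τ G ∧ G0 ≤ G ∧ ∀ t, Q t G := by
  classical
  obtain ⟨ι, _, _, e, he, hι⟩ := exists_index_of hT
  have hstep' : ∀ (t : T) (G : Submodule ℚ (ℂ × ℂ)), ∃ G' : Submodule ℚ (ℂ × ℂ),
      Good κ ω τ G → #G < 𝔠 → Good κ ω τ G' ∧ G ≤ G' ∧ #G' ≤ max #G ℵ₀ ∧ Q t G' := by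
    intro t G
    by_cases h : Good κ ω τ G ∧ #G < 𝔠
    · obtain ⟨G', h'⟩ := hstep t G h.1 h.2
      exact ⟨G', fun _ _ => h'⟩
    · exact ⟨G, fun h1 h2 => absurd ⟨h1, h2⟩ h⟩
  choose nx hnx using hstep'
  let F : ι → Submodule ℚ (ℂ × ℂ) := (wellFounded_lt (α := ι)).fix fun i f =>
    nx (e i) (sSup (insert G0 {H | ∃ j, ∃ hj : j < i, f j hj = H}))
  let U : ι → Submodule ℚ (ℂ × ℂ) := fun i => sSup (insert G0 (F '' Iio i))
  have hF : ∀ i, F i = nx (e i) (U i) := by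
    intro i
    have h1 : F i = nx (e i) (sSup (insert G0 {H | ∃ j, ∃ hj : j < i, F j = H})) :=
      WellFounded.fix_eq _ _ _
    rw [h1]
    congr 3
    ext H
    simp [mem_image]
  have key : ∀ i, Good κ ω τ (U i) ∧ #(U i) ≤ max #(Iio i) ℵ₀ := by
    intro i
    induction i using WellFoundedLT.induction with
    | ind i ih =>
      have hcl : ∀ j : ι, max #(Iio j) ℵ₀ < 𝔠 := fun j =>
        max_lt (hι j) Cardinal.aleph0_lt_continuum
      have hj : ∀ j ∈ Iio i, Good κ ω τ (F j) ∧ U j ≤ F j ∧ #(F j) ≤ max #(Iio i) ℵ₀ := by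
        intro j hj
        obtain ⟨h1, h2⟩ := ih j hj
        obtain ⟨h3, h4, h5, -⟩ := hnx (e j) (U j) h1 (h2.trans_lt (hcl j))
        rw [← hF j] at h3 h4 h5
        refine ⟨h3, h4, h5.trans ((max_aleph h2).trans ?_)⟩
        exact max_le_max (Cardinal.mk_le_mk_of_subset (Iio_subset_Iio (le_of_lt hj))) le_rfl
      obtain ⟨h1, h2⟩ := chain_good h0 F (Iio i) (fun j hj' => ⟨(hj j hj').1, (hj j hj').2.1⟩)
      refine ⟨h2, ?_⟩
      have h3 : ((U i : Submodule ℚ (ℂ × ℂ)) : Set (ℂ × ℂ)) =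
          (G0 : Set (ℂ × ℂ)) ∪ ⋃ j ∈ Iio i, (F j : Set (ℂ × ℂ)) := by
        ext v
        have := Submodule.mem_sSup_of_directed (z := v) ⟨G0, mem_insert _ _⟩ h1
        rw [SetLike.mem_coe, this]
        constructor
        · rintro ⟨_, (rfl | ⟨j, hj, rfl⟩), hv⟩
          · exact Or.inl hv
          · exact Or.inr (mem_biUnion hj hv)
        · rintro (hv | hv)
          · exact ⟨G0, mem_insert _ _, hv⟩
          · obtain ⟨j, hj, hv⟩ := mem_iUnion₂.1 hv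
            exact ⟨F j, mem_insert_of_mem _ ⟨j, hj, rfl⟩, hv⟩
      have h4 : #((U i : Submodule ℚ (ℂ × ℂ)) : Set (ℂ × ℂ)) ≤ max #(Iio i) ℵ₀ := by
        rw [h3]
        refine (Cardinal.mk_union_le _ _).trans ?_
        have h5 : #(⋃ j ∈ Iio i, (F j : Set (ℂ × ℂ)) : Set (ℂ × ℂ)) ≤ max #(Iio i) ℵ₀ := by
          refine (Cardinal.mk_biUnion_le _ _).trans ?_
          have h6 : (⨆ x : Iio i, #((F x.1 : Set (ℂ × ℂ)))) ≤ max #(Iio i) ℵ₀ :=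
            ciSup_le' fun x => (hj x.1 x.2).2.2
          refine (mul_le_mul' le_rfl h6).trans ?_
          refine (Cardinal.mul_le_max _ _).trans ?_
          simp
        refine (add_le_add (hc0.trans (le_max_right #(Iio i) ℵ₀)) h5).trans ?_
        refine (Cardinal.add_le_max _ _).trans ?_
        simp
      exact h4
  have key2 : ∀ i, Good κ ω τ (F i) ∧ U i ≤ F i ∧ Q (e i) (F i) := by
    intro i
    obtain ⟨h1, h2⟩ := key i
    obtain ⟨h3, h4, -, h5⟩ := hnx (e i) (U i) h1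
      (h2.trans_lt (max_lt (hι i) Cardinal.aleph0_lt_continuum))
    rw [← hF i] at h3 h4 h5
    exact ⟨h3, h4, h5⟩
  obtain ⟨-, h2⟩ := chain_good h0 F Set.univ (fun j _ => ⟨(key2 j).1, (key2 j).2.1⟩)
  refine ⟨_, h2, le_sSup (mem_insert _ _), fun t => ?_⟩
  obtain ⟨i, rfl⟩ := he t
  exact hQ _ _ _ (le_sSup (mem_insert_of_mem _ (mem_image_of_mem F (Set.mem_univ i)))) (key2 i).2.2

/-- the tasks: single numbers, and finite data for exponential-algebraic closedness -/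
abbrev Task : Type := ℂ ⊕ (Finset ℂ × Σ n : ℕ, (Fin n → ℂ) × (Fin n → ℂ))

theorem task_card : #Task ≤ 𝔠 := by
  have h1 : ∀ n : ℕ, #(Fin n → ℂ) ≤ 𝔠 := by
    intro n
    have : #(Fin n → ℂ) = 𝔠 ^ n := by
      rw [← Cardinal.power_def, Cardinal.mk_complex, Cardinal.mk_fin]
      exact Cardinal.power_natCast _ _
    rw [this]
    exact Cardinal.power_nat_le Cardinal.aleph0_le_continuum
  have h2 : #(Σ n : ℕ, (Fin n → ℂ) × (Fin n → ℂ)) ≤ 𝔠 := by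
    rw [Cardinal.mk_sigma]
    refine (Cardinal.sum_le_sum _ (fun _ => 𝔠) fun n => ?_).trans ?_
    · simp only [Cardinal.mk_prod, Cardinal.lift_id]
      exact (mul_le_mul' (h1 n) (h1 n)).trans Cardinal.continuum_mul_self.le
    · rw [Cardinal.sum_const]
      simp
  have h3 : #(Finset ℂ) ≤ 𝔠 := by
    rw [Cardinal.mk_finset_of_infinite, Cardinal.mk_complex]
  have h4 : #Task = #ℂ + #(Finset ℂ) * #(Σ n : ℕ, (Fin n → ℂ) × (Fin n → ℂ)) := by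
    rw [Cardinal.mk_sum, Cardinal.mk_prod]; simp
  rw [h4, Cardinal.mk_complex]
  refine (add_le_add le_rfl ((mul_le_mul' h3 h2).trans Cardinal.continuum_mul_self.le)).trans ?_
  exact Cardinal.continuum_add_self.le

theorem exists_total_closed {ω : ℂ} {τ : ℝ} {G0 : Submodule ℚ (ℂ × ℂ)} (h0 : Good κ ω τ G0)
    (hc0 : #G0 ≤ ℵ₀) :
    ∃ G : Submodule ℚ (ℂ × ℂ), Good κ ω τ G ∧ G0 ≤ G ∧ (∀ c, ∃ v ∈ G, v.1 = c) ∧
      (∀ c, c ≠ 0 → ∃ v ∈ G, exp v.2 = c) ∧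
      ∀ (C : Finset ℂ) (n : ℕ) (a b : Fin n → ℂ), (∀ j, b j ≠ 0) → Free (C : Set ℂ) a b →
        Rotund (C : Set ℂ) a b → ∃ w : Fin n → ℂ × ℂ, (∀ j, w j ∈ G) ∧
          ∀ P : MvPolynomial (Fin n ⊕ Fin n) (IntermediateField.adjoin ℚ (C : Set ℂ)),
            MvPolynomial.aeval (Sum.elim a b) P = 0 ↔
            MvPolynomial.aeval (Sum.elim (fun j => (w j).1) (fun j => exp (w j).2)) P = 0 := by
  let Q : Task → Submodule ℚ (ℂ × ℂ) → Prop := fun t G => match t with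
    | Sum.inl c => (∃ v ∈ G, v.1 = c) ∧ (c ≠ 0 → ∃ v ∈ G, exp v.2 = c)
    | Sum.inr ⟨C, ⟨n, (a, b)⟩⟩ => (∀ j, b j ≠ 0) → Free (C : Set ℂ) a b →
        Rotund (C : Set ℂ) a b → ∃ w : Fin n → ℂ × ℂ, (∀ j, w j ∈ G) ∧
          ∀ P : MvPolynomial (Fin n ⊕ Fin n) (IntermediateField.adjoin ℚ (C : Set ℂ)),
            MvPolynomial.aeval (Sum.elim a b) P = 0 ↔
            MvPolynomial.aeval (Sum.elim (fun j => (w j).1) (fun j => exp (w j).2)) P = 0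
  have hQ : ∀ t G G', G ≤ G' → Q t G → Q t G' := by
    rintro (c | ⟨C, n, a, b⟩) G G' hG h
    · exact ⟨h.1.imp fun v hv => ⟨hG hv.1, hv.2⟩, fun hc => (h.2 hc).imp fun v hv => ⟨hG hv.1, hv.2⟩⟩
    · intro hb hf hr
      obtain ⟨w, hw, hP⟩ := h hb hf hr
      exact ⟨w, fun j => hG (hw j), hP⟩
  have hstep : ∀ (t : Task) (G : Submodule ℚ (ℂ × ℂ)), Good κ ω τ G → #G < 𝔠 →
      ∃ G' : Submodule ℚ (ℂ × ℂ), Good κ ω τ G' ∧ G ≤ G' ∧ #G' ≤ max #G ℵ₀ ∧ Q t G' := by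
    rintro (c | ⟨C, n, a, b⟩) G hG hc
    · exact hG.task hc c
    · by_cases h : (∀ j, b j ≠ 0) ∧ Free (C : Set ℂ) a b ∧ Rotund (C : Set ℂ) a b
      · obtain ⟨G', h1, h2, h3, h4⟩ := Good.closed_step hG hc C.finite_toSet a b h.1 h.2.1 h.2.2
        exact ⟨G', h1, h2, h3, fun _ _ _ => h4⟩
      · exact ⟨G, hG, le_rfl, le_max_left _ _, fun h1 h2 h3 => absurd ⟨h1, h2, h3⟩ h⟩
  obtain ⟨G, h1, h2, h3⟩ := exists_limit h0 hc0 task_card Q hQ hstep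
  exact ⟨G, h1, h2, fun c => (h3 (Sum.inl c)).1, fun c => (h3 (Sum.inl c)).2,
    fun C n a b => h3 (Sum.inr ⟨C, ⟨n, (a, b)⟩⟩)⟩

end Pool.Agent.H96EX
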