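import Pool.Agent.H96EX.Fn
import Pool.Agent.H96EX.Tot

/-!
# From a countable partial exponential map to an exponential map of the complex numbers

(after helper96's `H96RS2.exists_total` and `H96RS2.exists_exp`, with the values on the base kept)
-/

open Set Complex Cardinal

namespace Pool.Agent.H96EX

open Pool.Agent.H96RS

variable {κ : Prop}

/-- `τ` is algebraic over the field generated by `p` -/
abbrev Kp (p τ : ℝ) : Prop := (τ : ℂ) ∈ Mt.closure {(p : ℂ)}

theorem not_Kp {p : ℝ} {t : ℝ} (h : AlgebraicIndependent ℚ ![(p : ℂ), (t : ℂ)]) : ¬ Kp p t := by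
  intro hk
  have h1 : Mt.Indep (range ![(p : ℂ), (t : ℂ)]) := h.coe_range
  have hne : (p : ℂ) ≠ (t : ℂ) := by
    intro he
    have h2 : (0 : Fin 2) = 1 := h.injective (by simpa using he)
    exact absurd h2 (by decide)
  refine h1.notMem_closure_sdiff_of_mem (e := (t : ℂ)) ⟨1, rfl⟩ (Mt.closure_subset_closure ?_ hk)
  rintro x rfl
  exact ⟨⟨0, rfl⟩, hne⟩

/-- The field generated over the rationals by the numbers `z i` and their images `w i`. -/
noncomputable abbrev Gen {n : ℕ} (z w : Fin n → ℂ) : IntermediateField ℚ ℂ :=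
  IntermediateField.adjoin ℚ (Set.range z ∪ Set.range w)

/-- `E` is an exponential map of the field of complex numbers with the real number `p` in the
place of `π`: a homomorphism from the additive group onto the multiplicative group, with kernel
exactly `2 p i ℤ`, with the usual roots of unity, commuting with complex conjugation, strongly
exponentially-algebraically closed, for which all instances of Schanuel's conjecture hold, except
that the bound `n` is replaced by `n - 1` when `p` and `E 1` are algebraically dependent and both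
`1` and `2 p i` lie in the rational span of the given numbers. -/
structure ZilberExp (p : ℝ) (E : ℂ → ℂ) : Prop where
  add : ∀ z w : ℂ, E (z + w) = E z * E w
  onto : ∀ y : ℂ, y ≠ 0 → ∃ z : ℂ, E z = y
  kernel : ∀ z : ℂ, E z = 1 ↔ ∃ k : ℤ, z = k * (2 * p * Complex.I)
  torsion : ∀ q : ℚ, E (q * (2 * p * Complex.I)) = Complex.exp (2 * Real.pi * Complex.I * q)
  conj : ∀ z : ℂ, E (starRingEnd ℂ z) = starRingEnd ℂ (E z)
  schanuel_pred : ∀ (n : ℕ) (z : Fin n → ℂ), LinearIndependent ℚ z →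
    (n : Cardinal.{0}) ≤ Algebra.trdeg ℚ (Gen z (fun i => E (z i))) + 1
  schanuel : ∀ (n : ℕ) (z : Fin n → ℂ), LinearIndependent ℚ z →
    (¬ ((1 : ℂ) ∈ Submodule.span ℚ (Set.range z) ∧
        (2 * p * Complex.I : ℂ) ∈ Submodule.span ℚ (Set.range z)) ∨
      AlgebraicIndependent ℚ ![(p : ℂ), E 1]) →
    (n : Cardinal.{0}) ≤ Algebra.trdeg ℚ (Gen z (fun i => E (z i)))
  closed : ∀ (C : Finset ℂ) (n : ℕ) (a b : Fin n → ℂ), (∀ j, b j ≠ 0) → Free (C : Set ℂ) a b →
    Rotund (C : Set ℂ) a b → ∃ z : Fin n → ℂ,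
      ∀ P : MvPolynomial (Fin n ⊕ Fin n) (IntermediateField.adjoin ℚ (C : Set ℂ)),
        MvPolynomial.aeval (Sum.elim a b) P = 0 ↔
        MvPolynomial.aeval (Sum.elim z (fun j => E (z j))) P = 0

theorem exists_exp {ω : ℂ} {τ : ℝ} {G0 : Submodule ℚ (ℂ × ℂ)} (hG0 : Good κ ω τ G0)
    (hc0 : #G0 ≤ ℵ₀) :
    ∃ E : ℂ → ℂ, (∀ z w, E (z + w) = E z * E w) ∧
      (∀ y, y ≠ 0 → ∃ z, E z = y) ∧ (∀ z, E z = 1 ↔ ∃ k : ℤ, z = (k : ℚ) • ω) ∧
      (∀ q : ℚ, E (q • ω) = exp (q • (2 * Real.pi * I))) ∧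
      (∀ z, E (starRingEnd ℂ z) = starRingEnd ℂ (E z)) ∧ (∀ v ∈ G0, E v.1 = exp v.2) ∧
      (∀ (C : Finset ℂ) (n : ℕ) (a b : Fin n → ℂ), (∀ j, b j ≠ 0) → Free (C : Set ℂ) a b →
        Rotund (C : Set ℂ) a b → ∃ z : Fin n → ℂ,
          ∀ P : MvPolynomial (Fin n ⊕ Fin n) (IntermediateField.adjoin ℚ (C : Set ℂ)),
            MvPolynomial.aeval (Sum.elim a b) P = 0 ↔
            MvPolynomial.aeval (Sum.elim z (fun j => E (z j))) P = 0) ∧
      ∀ (n : ℕ) (z : Fin n → ℂ), LinearIndependent ℚ z → ∃ d : ℕ∞, d ≤ 1 ∧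
        (¬ (κ ∧ (1 : ℂ) ∈ Submodule.span ℚ (range z) ∧ ω ∈ Submodule.span ℚ (range z)) → d = 0) ∧
        (n : ℕ∞) ≤ Mt.eRk (range z ∪ range (fun i => E (z i))) + d := by
  obtain ⟨G, hG, hle, hdom, hran, hclo⟩ := exists_total_closed hG0 hc0
  have hA : ∀ z : ℂ, ∃ m : ℂ, (z, m) ∈ G := by
    intro z
    obtain ⟨⟨a, m⟩, hv, rfl⟩ := hdom z
    exact ⟨m, hv⟩
  choose A hA using hA
  have hu : ∀ z m : ℂ, (z, m) ∈ G → A z = m := by
    intro z m h
    have h1 := G.sub_mem (hA z) h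
    have h2 := hG.fn _ h1 (by simp)
    exact sub_eq_zero.1 h2
  have hAadd : ∀ z w, A (z + w) = A z + A w := fun z w => hu _ _ (G.add_mem (hA z) (hA w))
  have hAsmul : ∀ (q : ℚ) z, A (q • z) = q • A z := fun q z => hu _ _ (G.smul_mem q (hA z))
  have hAω : A ω = 2 * Real.pi * I := hu _ _ hG.om
  refine ⟨fun z => exp (A z), ?_, ?_, ?_, ?_, ?_, ?_, ?_, ?_⟩
  · intro z w
    simp only [hAadd, exp_add]
  · intro y hy
    obtain ⟨⟨a, m⟩, hv, rfl⟩ := hran y hy
    exact ⟨a, by simp only [hu a m hv]⟩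
  · intro z
    constructor
    · intro h
      exact hG.ker _ (hA z) h
    · rintro ⟨k, rfl⟩
      simp only [hAsmul, hAω]
      rw [Rat.smul_def, Rat.cast_intCast, exp_int_mul_two_pi_mul_I]
  · intro q
    simp only [hAsmul, hAω]
  · intro z
    have h1 : A (starRingEnd ℂ z) = starRingEnd ℂ (A z) := hu _ _ (hG.cj _ (hA z))
    simp only [h1, exp_conj]
  · intro v hv
    have h1 : A v.1 = v.2 := hu _ _ (hle hv)
    simp only [h1]
  · intro C n a b hb hf hr
    obtain ⟨w, hw, hP⟩ := hclo C n a b hb hf hr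
    refine ⟨fun j => (w j).1, fun P => ?_⟩
    have h1 : (fun j => exp (A (w j).1)) = fun j => exp (w j).2 := by
      funext j; rw [hu _ _ (hw j)]
    rw [h1]
    exact hP P
  · intro n z hz
    set w : Fin n → ℂ × ℂ := fun i => (z i, A (z i)) with hw
    have hwli : LinearIndependent ℚ w := by
      refine LinearIndependent.of_comp (LinearMap.fst ℚ ℂ ℂ) ?_
      exact hz
    have hYG : Submodule.span ℚ (range w) ≤ G := by
      rw [Submodule.span_le]; rintro _ ⟨i, rfl⟩; exact hA (z i)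
    have hfin : FiniteDimensional ℚ (Submodule.span ℚ (range w)) :=
      FiniteDimensional.span_of_finite ℚ (Set.finite_range w)
    have h1 := hG.sch _ hYG hfin
    have h2 : Module.finrank ℚ (Submodule.span ℚ (range w)) = n := by
      rw [finrank_span_eq_card hwli, Fintype.card_fin]
    have hfst : ∀ v ∈ Submodule.span ℚ (range w), v.1 ∈ Submodule.span ℚ (range z) := by
      intro v hv
      have h3 := Submodule.mem_map_of_mem (f := LinearMap.fst ℚ ℂ ℂ) hv
      rw [Submodule.map_span, ← range_comp] at h3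
      exact h3
    refine ⟨dl κ ω (Submodule.span ℚ (range w)), dl_le_one _ _, fun hn => ?_, ?_⟩
    · unfold dl
      rw [if_neg]
      rintro ⟨hk, ⟨v, hv, hv1⟩, ⟨u, hu', hu1⟩⟩
      exact hn ⟨hk, hv1 ▸ hfst v hv, hu1 ▸ hfst u hu'⟩
    · rw [h2] at h1
      refine h1.trans ?_
      gcongr
      rw [← Mt.eRk_closure_eq (range z ∪ range fun i => exp (A (z i)))]
      apply Mt.eRk_mono
      have hsub : range z ∪ (range fun i => exp (A (z i))) ⊆
          Mt.closure (range z ∪ range fun i => exp (A (z i))) := Mt.subset_closure _ (by simp)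
      have h4 : ∀ v ∈ Submodule.span ℚ (range w),
          v.1 ∈ Mt.closure (range z ∪ range fun i => exp (A (z i))) ∧
          exp v.2 ∈ Mt.closure (range z ∪ range fun i => exp (A (z i))) := by
        intro v hv
        induction hv using Submodule.span_induction with
        | mem v hv =>
          obtain ⟨i, rfl⟩ := hv
          exact ⟨hsub (Or.inl ⟨i, rfl⟩), hsub (Or.inr ⟨i, rfl⟩)⟩
        | zero =>
          have h5 := cl_rat (S := range z ∪ range fun i => exp (A (z i))) 0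
          have h6 := cl_rat (S := range z ∪ range fun i => exp (A (z i))) 1
          rw [Rat.cast_zero] at h5
          rw [Rat.cast_one] at h6
          exact ⟨h5, by rw [Prod.snd_zero, exp_zero]; exact h6⟩
        | add u v _ _ h5 h6 =>
          exact ⟨cl_add h5.1 h6.1, by rw [Prod.snd_add, exp_add]; exact cl_mul h5.2 h6.2⟩
        | smul q v _ h5 => exact ⟨smul_mem q h5.1, exp_smul_mem q h5.2⟩
      rintro t ⟨v, hv, rfl | rfl⟩
      · exact (h4 v hv).1
      · exact (h4 v hv).2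


theorem exists_zilberExp {p : ℝ} {τ : ℝ} (hτ0 : 0 < τ) {G0 : Submodule ℚ (ℂ × ℂ)}
    (hG0 : Good (Kp p τ) (2 * p * I) τ G0) (hc0 : #G0 ≤ ℵ₀) :
    ∃ E : ℂ → ℂ, ZilberExp p E ∧ E 1 = τ ∧ ∀ v ∈ G0, E v.1 = exp v.2 := by
  obtain ⟨E, hadd, hsurj, hker, hq, hconj, h1, hclo, hsch⟩ := exists_exp hG0 hc0
  have hE1 : E 1 = τ := by
    have h2 : E 1 = exp ((Real.log τ : ℝ) : ℂ) := h1 _ hG0.one
    rw [h2, ← ofReal_exp, Real.exp_log hτ0]
  refine ⟨E, ⟨hadd, hsurj, fun z => ?_, fun q => ?_, hconj, fun n z hz => ?_, fun n z hz hc => ?_,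
    hclo⟩, hE1, h1⟩
  · rw [hker z]
    refine exists_congr fun k => ?_
    rw [Rat.smul_def, Rat.cast_intCast]
  · have h3 := hq q
    rw [Rat.smul_def, Rat.smul_def] at h3
    rw [h3]
    congr 1
    ring
  · obtain ⟨d, hd1, hd0, h3⟩ := hsch n z hz
    have h5 : ((n - 1 : ℕ) : ℕ∞) ≤ Mt.eRk (Set.range z ∪ Set.range (fun i => E (z i))) := by
      have h6 : (n : ℕ∞) ≤ Mt.eRk (Set.range z ∪ Set.range (fun i => E (z i))) + 1 :=
        h3.trans (by gcongr)
      push_cast
      exact tsub_le_iff_right.2 h6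
    have h7 := le_trdeg h5
    calc (n : Cardinal.{0}) ≤ ((n - 1 + 1 : ℕ) : Cardinal.{0}) := by
          exact_mod_cast (by omega : n ≤ n - 1 + 1)
      _ = ((n - 1 : ℕ) : Cardinal.{0}) + 1 := by push_cast; rfl
      _ ≤ _ := by gcongr
  · obtain ⟨d, hd1, hd0, h3⟩ := hsch n z hz
    have hn : ¬ (Kp p τ ∧ (1 : ℂ) ∈ Submodule.span ℚ (range z) ∧
        (2 * p * I : ℂ) ∈ Submodule.span ℚ (range z)) := by
      rintro ⟨hk, hb⟩
      rcases hc with hc | hc
      · exact hc hb
      · rw [hE1] at hc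
        exact not_Kp hc hk
    rw [hd0 hn, add_zero] at h3
    exact le_trdeg h3

end Pool.Agent.H96EX
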