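import Pool.Agent.H96EX.Approx
import Pool.Agent.H96EX.BaseB
import Pool.Agent.H96EX.Total

/-!
# The two families of exponential maps
-/

open Set Complex Cardinal

namespace Pool.Agent.H96EX

open Pool.Agent.H96RS

variable {κ : Prop}

theorem main_approx {S0 : Set ℂ} (F : Finset ℂ) {ε : ℝ} (hε : 0 < ε) :
    ∃ δ > 0, ∀ (p τ : ℝ) (G0 : Submodule ℚ (ℂ × ℂ)), 0 < τ →
      Base (Kp p τ) S0 δ (2 * p * I) τ G0 →
      ∃ E : ℂ → ℂ, ZilberExp p E ∧ (∀ v ∈ G0, E v.1 = exp v.2) ∧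
        ∀ z ∈ F, ‖E z - exp z‖ < ε := by
  classical
  obtain ⟨δ1, hδ1, h1⟩ := exists_delta F hε
  set F' : Finset ℂ := F.image (fun z => (z.re : ℂ)) ∪ F.image (fun z => (z.im : ℂ) * I) with hF'
  have hF'2 : ∀ f ∈ F', f.im = 0 ∨ f.re = 0 := by
    intro f hf
    rcases Finset.mem_union.1 hf with hf | hf
    · obtain ⟨z, _, rfl⟩ := Finset.mem_image.1 hf
      exact Or.inl (by simp)
    · obtain ⟨z, _, rfl⟩ := Finset.mem_image.1 hf
      exact Or.inr (by simp)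
  obtain ⟨δ, hδ, h2⟩ := approx (S0 := S0) F' hF'2 (δ1 / 2) (by positivity)
  refine ⟨δ, hδ, fun p τ G0 hτ0 h0 => ?_⟩
  obtain ⟨G, hle, hG, hGc, -, hG2⟩ := h2 _ _ _ _ h0
  obtain ⟨E, hE, -, hEG⟩ := exists_zilberExp hτ0 hG hGc
  refine ⟨E, hE, fun v hv => hEG v (hle hv), fun z hz => ?_⟩
  obtain ⟨v, hv, hv1, hv2⟩ := hG2 (z.re : ℂ) (Or.inr (Finset.mem_coe.2 (Finset.mem_union_left _
    (Finset.mem_image_of_mem _ hz))))
  obtain ⟨w, hw, hw1, hw2⟩ := hG2 ((z.im : ℂ) * I) (Or.inr (Finset.mem_coe.2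
    (Finset.mem_union_right _ (Finset.mem_image_of_mem (fun z : ℂ => (z.im : ℂ) * I) hz))))
  have h3 : z = v.1 + w.1 := by rw [hv1, hw1]; exact (Complex.re_add_im z).symm
  have h4 : E z = exp (v.2 + w.2) := by
    rw [h3, hE.add, hEG v hv, hEG w hw, exp_add]
  rw [h4]
  refine h1 z hz _ ?_
  have h5 : v.2 + w.2 - z = (v.2 - v.1) + (w.2 - w.1) := by rw [h3]; ring
  rw [h5]
  exact (norm_add_le _ _).trans (by linarith)

theorem cl_real {S : Set ℂ} {r : ℝ} (hr : IsAlgebraic ℚ r) : (r : ℂ) ∈ Mt.closure S :=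
  cl_alg hr.algebraMap

theorem pi_notMem : (Real.pi : ℂ) ∉ Mt.closure ∅ :=
  notMem_closure_empty ((transcendental_algebraMap_iff (R := ℚ) (S := ℝ) (A := ℂ)
    Complex.ofReal_injective).2 Pool.Agent.Helper77.LW.transcendental_pi)

theorem e_notMem : ((Real.exp 1 : ℝ) : ℂ) ∉ Mt.closure ∅ := by
  intro h
  rw [Complex.ofReal_exp, Complex.ofReal_one] at h
  exact one_ne_zero (alg_eq_zero_of_exp isAlgebraic_one h)

theorem two_mul_I_notMem {p : ℝ} (hp : (p : ℂ) ∉ Mt.closure ∅) :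
    (2 * p * Complex.I : ℂ) ∉ Mt.closure ∅ := by
  intro h
  apply hp
  refine of_smul_mem (q := 2) two_ne_zero ?_
  rw [Rat.smul_def]
  have := of_mul_I_mem h
  simpa using this

theorem conj_two_mul_I (p : ℝ) :
    starRingEnd ℂ (2 * p * Complex.I : ℂ) = -(2 * p * Complex.I) := by
  apply Complex.ext <;> simp

/-- second family: the true exponential map on all algebraic numbers -/
theorem famB {s : ℝ} (hs : IsAlgebraic ℚ s) (hs0 : s ≠ 0) (F : Finset ℂ) {ε : ℝ} (hε : 0 < ε) :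
    ∃ δ > 0, ∀ r : ℝ, IsAlgebraic ℚ r → |Real.pi + s * Real.exp 1 - r| < δ →
      ∃ E : ℂ → ℂ, ZilberExp (r - s * Real.exp 1) E ∧
        (∀ a : ℂ, IsAlgebraic ℚ a → E a = exp a) ∧ ∀ z ∈ F, ‖E z - exp z‖ < ε := by
  set c : ℂ := I * (s * Real.exp 1 : ℝ) with hc
  obtain ⟨δ0, hδ0, h0⟩ := main_approx (S0 := {a : ℂ | IsAlgebraic ℚ a} ∪ {c}) F hε
  refine ⟨δ0, hδ0, fun r hr hrs => ?_⟩
  set p : ℝ := r - s * Real.exp 1 with hp
  have hsC : (s : ℂ) ≠ 0 := by exact_mod_cast hs0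
  have hecl : ∀ S : Set ℂ, (p : ℂ) ∈ Mt.closure S → ((Real.exp 1 : ℝ) : ℂ) ∈ Mt.closure S := by
    intro S h
    have h3 : ((Real.exp 1 : ℝ) : ℂ) = ((r : ℂ) - p) * (s : ℂ)⁻¹ := by
      rw [hp]
      push_cast
      field_simp
      ring
    rw [h3]
    exact cl_mul (cl_sub (cl_real hr) h) (cl_inv (cl_real hs))
  have hpc : (p : ℂ) ∉ Mt.closure ∅ := fun h => e_notMem (hecl _ h)
  have he : ((Real.exp 1 : ℝ) : ℂ) ∈ Mt.closure {(2 * p * I : ℂ)} := by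
    refine hecl _ ?_
    refine of_smul_mem (q := 2) two_ne_zero ?_
    rw [Rat.smul_def]
    have h3 : (2 * p * I : ℂ) ∈ Mt.closure {(2 * p * I : ℂ)} :=
      Mt.mem_closure_of_mem rfl (by simp)
    have := of_mul_I_mem h3
    simpa using this
  have hκ : Kp p (Real.exp 1) := hecl _ (Mt.mem_closure_of_mem rfl (by simp))
  have hG := baseB_good (κ := Kp p (Real.exp 1)) (two_mul_I_notMem hpc) (conj_two_mul_I _) he hκ
  have hcG : ((c, I * (r - Real.pi : ℝ)) : ℂ × ℂ) ∈ GB (2 * p * I) := by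
    have h3 : ((c, I * (r - Real.pi : ℝ)) : ℂ × ℂ) = ((I * (r : ℂ), I * (r : ℂ)) : ℂ × ℂ) +
        (-(1 / 2) : ℚ) • ((2 * p * I, 2 * Real.pi * I) : ℂ × ℂ) := by
      ext1
      · simp only [Prod.fst_add, Prod.smul_fst, Rat.smul_def, hc, hp]
        push_cast
        ring
      · simp only [Prod.snd_add, Prod.smul_snd, Rat.smul_def]
        push_cast
        ring
    rw [h3]
    refine Submodule.add_mem_sup ⟨?_, rfl⟩
      (Submodule.smul_mem _ _ (Submodule.mem_span_singleton_self _))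
    refine IsAlgebraic.mul ?_ hr.algebraMap
    refine ⟨Polynomial.X ^ 2 + 1, ?_, by simp⟩
    exact Polynomial.Monic.ne_zero (by monicity!)
  suffices hB : Base (Kp p (Real.exp 1)) ({a : ℂ | IsAlgebraic ℚ a} ∪ {c}) δ0 (2 * p * I) (Real.exp 1)
      (GB (2 * p * I)) by
    obtain ⟨E, hE, hEG, hEF⟩ := h0 p (Real.exp 1) _ (Real.exp_pos 1) hB
    refine ⟨E, hE, fun a ha => ?_, hEF⟩
    exact hEG (a, a) ((le_sup_left : Diag ≤ _) ⟨ha, rfl⟩)
  refine ⟨hG, GB_card _, ?_, ?_⟩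
  · intro v hv
    obtain ⟨u, hu, q, rfl⟩ := mem_dec hv
    refine Submodule.add_mem _ (Submodule.subset_span (Or.inl hu.1)) (Submodule.smul_mem _ _ ?_)
    have h3 : (2 * p * I : ℂ) = (2 : ℚ) • (I * (r : ℂ)) + (-2 : ℚ) • c := by
      rw [Rat.smul_def, Rat.smul_def, hc, hp]
      push_cast
      ring
    show (2 * p * I : ℂ) ∈ _
    rw [h3]
    refine Submodule.add_mem _ (Submodule.smul_mem _ _ (Submodule.subset_span (Or.inl ?_)))
      (Submodule.smul_mem _ _ (Submodule.subset_span (Or.inr rfl)))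
    refine IsAlgebraic.mul ?_ hr.algebraMap
    refine ⟨Polynomial.X ^ 2 + 1, ?_, by simp⟩
    exact Polynomial.Monic.ne_zero (by monicity!)
  · rintro t (ht | ht)
    · exact ⟨(t, t), (le_sup_left : Diag ≤ _) ⟨ht, rfl⟩, rfl, by simp [hδ0.le]⟩
    · rw [mem_singleton_iff] at ht
      subst ht
      refine ⟨_, hcG, rfl, ?_⟩
      show ‖I * ((r - Real.pi : ℝ) : ℂ) - c‖ ≤ δ0
      have h3 : I * ((r - Real.pi : ℝ) : ℂ) - c = I * ((-(Real.pi + s * Real.exp 1 - r) : ℝ) : ℂ) := by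
        rw [hc]; push_cast; ring
      rw [h3, norm_mul, Complex.norm_I, one_mul, Complex.norm_real, Real.norm_eq_abs, abs_neg]
      exact hrs.le

end Pool.Agent.H96EX
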