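import Pool.Agent.H96EX.Tr

open Set Complex Cardinal

namespace Pool.Agent.H96EX

open Pool.Agent.H96RS

variable {κ : Prop}

theorem le_trdeg {S : Set ℂ} {m : ℕ} (h : (m : ℕ∞) ≤ Mt.eRk S) :
    (m : Cardinal.{0}) ≤ Algebra.trdeg ℚ (IntermediateField.adjoin ℚ S) := by
  obtain ⟨J, hJS, hJ, hcard⟩ := Mt.le_eRk_iff.1 h
  have hJ' : AlgebraicIndependent ℚ (fun a : J => (a : ℂ)) := hJ
  let v : J → IntermediateField.adjoin ℚ S :=
    fun a => ⟨(a : ℂ), IntermediateField.subset_adjoin ℚ S (hJS a.2)⟩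
  have hv : AlgebraicIndependent ℚ v :=
    AlgebraicIndependent.of_comp (IntermediateField.adjoin ℚ S).val hJ'
  have h1 := hv.cardinalMk_le_trdeg
  have h2 : #J = m := by
    have h3 : Cardinal.toENat #J = (m : ℕ∞) := by rw [← hcard]; exact toENat_cardinalMk J
    exact Cardinal.toENat_eq_natCast.1 h3
  rw [h2] at h1
  exact h1

theorem notMem_closure_empty {a : ℂ} (ha : Transcendental ℚ a) : a ∉ Mt.closure ∅ := by
  intro h
  rw [mem_cl] at h
  apply ha
  have h2 : Algebra.adjoin ℚ (∅ : Set ℂ) = ⊥ := Algebra.adjoin_empty _ _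
  rw [h2] at h
  have h3 : Algebra.IsAlgebraic ℚ (⊥ : Subalgebra ℚ ℂ) :=
    ⟨fun a => by
      obtain ⟨q, hq⟩ := Algebra.mem_bot.1 a.2
      have : a = algebraMap ℚ (⊥ : Subalgebra ℚ ℂ) q := Subtype.ext hq.symm
      rw [this]; exact isAlgebraic_algebraMap q⟩
  exact h.restrictScalars ℚ

end Pool.Agent.H96EX
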