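import Pool.Agent.H96EX.Rot
import Pool.Agent.H96EX.St

open Set Complex Cardinal
open scoped Matroid

namespace Pool.Agent.H96EX

open Pool.Agent.H96RS

variable {κ : Prop}

theorem rk_insert {F P : Set ℂ} {a : ℂ} (h : a ∉ Mt.closure (F ∪ P)) :
    rk F (insert a P) = rk F P + 1 := by
  have hE : (Mt ／ F).E = Set.univ \ F := by rw [Matroid.contract_ground]; rfl
  refine (Mt ／ F).eRk_insert_eq_add_one ⟨?_, ?_⟩
  · rw [hE]
    exact ⟨Set.mem_univ a, fun hF => h (Mt.mem_closure_of_mem (Or.inl hF) (by simp))⟩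
  · rw [Matroid.contract_closure_eq, union_comm]
    exact fun hc => h hc.1

theorem small_union {F P : Set ℂ} (hF : #F < 𝔠) (hP : P.Finite) : #(Mt.closure (F ∪ P)) < 𝔠 := by
  refine (closure_card _).trans_lt (max_lt ?_ Cardinal.aleph0_lt_continuum)
  refine (Cardinal.mk_union_le _ _).trans_lt ?_
  exact Cardinal.add_lt_of_lt Cardinal.aleph0_le_continuum hF
    (hP.lt_aleph0.trans Cardinal.aleph0_lt_continuum)

/-- generic complex numbers which are independent together with their conjugates -/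
theorem exists_generic_rk {F : Set ℂ} (hF : #F < 𝔠) (k : ℕ) : ∃ x : Fin k → ℂ,
    ((2 * k : ℕ) : ℕ∞) ≤ rk F (range x ∪ range fun i => starRingEnd ℂ (x i)) := by
  induction k with
  | zero => exact ⟨Fin.elim0, by simp⟩
  | succ k ih =>
    obtain ⟨x, hx⟩ := ih
    set P : Set ℂ := range x ∪ range fun i => starRingEnd ℂ (x i) with hP
    have hPf : P.Finite := (finite_range _).union (finite_range _)
    obtain ⟨s, -, hs⟩ := gen_real (small_union hF hPf)
    obtain ⟨t, -, ht⟩ := gen_real (small_union hF (hPf.insert (s : ℂ)))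
    have h1 : rk F (insert (t : ℂ) (insert (s : ℂ) P)) = rk F P + 1 + 1 := by
      rw [rk_insert ht, rk_insert hs]
    refine ⟨Fin.cons (s + t * I) x, ?_⟩
    have hr1 : range (Fin.cons ((s : ℂ) + t * I) x : Fin (k + 1) → ℂ) = insert ((s : ℂ) + t * I) (range x) :=
      Fin.range_cons _ _
    have hr2 : (range fun i => starRingEnd ℂ ((Fin.cons ((s : ℂ) + t * I) x : Fin (k + 1) → ℂ) i)) =
        insert ((s : ℂ) - t * I) (range fun i => starRingEnd ℂ (x i)) := by
      have h2 : (fun i => starRingEnd ℂ ((Fin.cons ((s : ℂ) + t * I) x : Fin (k + 1) → ℂ) i)) =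
          (Fin.cons ((s : ℂ) - t * I) (fun i => starRingEnd ℂ (x i)) : Fin (k + 1) → ℂ) := by
        funext i
        refine Fin.cases ?_ (fun j => ?_) i
        · simp only [Fin.cons_zero]
          apply Complex.ext <;> simp
        · simp only [Fin.cons_succ]
      rw [h2]
      exact Fin.range_cons _ _
    rw [hr1, hr2]
    have hsub : insert (t : ℂ) (insert (s : ℂ) P) ⊆ Mt.closure (F ∪
        (insert ((s : ℂ) + t * I) (range x) ∪
          insert ((s : ℂ) - t * I) (range fun i => starRingEnd ℂ (x i)))) := by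
      set Q : Set ℂ := F ∪ (insert ((s : ℂ) + t * I) (range x) ∪
          insert ((s : ℂ) - t * I) (range fun i => starRingEnd ℂ (x i))) with hQ
      have hm : ∀ a ∈ Q, a ∈ Mt.closure Q := fun a ha => Mt.mem_closure_of_mem ha (by simp)
      have h3 : (s : ℂ) + t * I ∈ Mt.closure Q := hm _ (Or.inr (Or.inl (Or.inl rfl)))
      have h4 : (s : ℂ) - t * I ∈ Mt.closure Q := hm _ (Or.inr (Or.inr (Or.inl rfl)))
      have hs' : (s : ℂ) ∈ Mt.closure Q := by
        refine of_smul_mem (q := 2) two_ne_zero ?_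
        have : (2 : ℚ) • (s : ℂ) = ((s : ℂ) + t * I) + ((s : ℂ) - t * I) := by
          rw [Rat.smul_def]; push_cast; ring
        rw [this]; exact cl_add h3 h4
      have ht' : (t : ℂ) ∈ Mt.closure Q := by
        apply of_mul_I_mem
        have : (t : ℂ) * I = ((s : ℂ) + t * I) - s := by ring
        rw [this]; exact cl_sub h3 hs'
      rintro a (rfl | rfl | (ha | ha))
      · exact ht'
      · exact hs'
      · exact hm a (Or.inr (Or.inl (Or.inr ha)))
      · exact hm a (Or.inr (Or.inr (Or.inr ha)))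
    have h5 := rk_le_of_subset hsub
    rw [h1] at h5
    refine le_trans ?_ h5
    calc ((2 * (k + 1) : ℕ) : ℕ∞) = ((2 * k : ℕ) : ℕ∞) + 1 + 1 := by push_cast; ring
      _ ≤ rk F P + 1 + 1 := by gcongr

theorem exists_generic {F : Set ℂ} (hF : #F < 𝔠) (k : ℕ) : ∃ x : Fin k → ℂ,
    Function.Injective x ∧ (Mt ／ F).Indep (range x) ∧
      (Mt ／ (F ∪ range x)).Indep (range fun i => starRingEnd ℂ (x i)) := by
  obtain ⟨x, hx⟩ := exists_generic_rk hF k
  set y : Fin k ⊕ Fin k → ℂ := Sum.elim x (fun i => starRingEnd ℂ (x i)) with hy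
  have hr : range y = range x ∪ range fun i => starRingEnd ℂ (x i) := Set.Sum.elim_range _ _
  rw [← hr] at hx
  have hcard : (Set.univ : Set (Fin k ⊕ Fin k)).encard = ((2 * k : ℕ) : ℕ∞) := by
    rw [encard_univ, ENat.card_eq_coe_fintype_card, Fintype.card_sum, Fintype.card_fin, two_mul]
  have hle : (range y).encard ≤ ((2 * k : ℕ) : ℕ∞) := by
    rw [← hcard, ← image_univ]
    exact encard_image_le _ _
  have hind : (Mt ／ F).Indep (range y) := by
    rw [Matroid.indep_iff_eRk_eq_encard_of_finite (finite_range y)]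
    exact le_antisymm ((Mt ／ F).eRk_le_encard _) (hle.trans hx)
  have hinj : Function.Injective y := by
    have h1 : (y '' Set.univ).encard = (Set.univ : Set (Fin k ⊕ Fin k)).encard := by
      rw [hcard, image_univ]
      exact le_antisymm hle (hx.trans ((Mt ／ F).eRk_le_encard _))
    have h2 := Set.finite_univ.injOn_of_encard_image_eq h1
    exact fun a b hab => h2 (Set.mem_univ a) (Set.mem_univ b) hab
  refine ⟨x, fun a b hab => ?_, hind.subset (by rw [hr]; exact subset_union_left), ?_⟩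
  · have h1 : y (Sum.inl a) = y (Sum.inl b) := hab
    exact Sum.inl_injective (hinj h1)
  · rw [rindep_iff] at hind ⊢
    rintro _ ⟨i, rfl⟩ hc
    refine hind (starRingEnd ℂ (x i)) ⟨Sum.inr i, rfl⟩ (Mt.closure_subset_closure ?_ hc)
    rintro a ((ha | ⟨j, rfl⟩) | ⟨⟨j, rfl⟩, hj⟩)
    · exact Or.inl ha
    · refine Or.inr ⟨⟨Sum.inl j, rfl⟩, fun h => ?_⟩
      have h1 : y (Sum.inl j) = y (Sum.inr i) := h
      exact absurd (hinj h1) (by simp)
    · exact Or.inr ⟨⟨Sum.inr j, rfl⟩, hj⟩

end Pool.Agent.H96EX
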