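import Pool.Agent.H96EX.Gr

open Set Complex
open scoped Matroid

namespace Pool.Agent.H96EX

open Pool.Agent.H96RS

variable {κ : Prop}

/-- the rank of `S` relative to `F` -/
noncomputable abbrev rk (F S : Set ℂ) : ℕ∞ := (Mt ／ F).eRk S

theorem rindep_iff {F I : Set ℂ} :
    (Mt ／ F).Indep I ↔ ∀ i ∈ I, i ∉ Mt.closure (F ∪ (I \ {i})) := by
  have hE : (Mt ／ F).E = univ \ F := by rw [Matroid.contract_ground]; rfl
  constructor
  · intro h i hi hc
    have h1 := h.notMem_closure_sdiff_of_mem hi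
    rw [Matroid.contract_closure_eq] at h1
    apply h1
    refine ⟨by rwa [union_comm], ?_⟩
    have h2 := h.subset_ground hi
    rw [hE] at h2
    exact h2.2
  · intro h
    have hI : I ⊆ (Mt ／ F).E := by
      intro i hi
      rw [hE]
      refine ⟨mem_univ i, fun hF => h i hi ?_⟩
      exact Mt.mem_closure_of_mem (Or.inl hF) (by simp)
    rw [Matroid.indep_iff_forall_notMem_closure_sdiff hI]
    intro i hi hc
    rw [Matroid.contract_closure_eq] at hc
    exact h i hi (by rw [union_comm]; exact hc.1)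

theorem rindep_closure_iff {F I : Set ℂ} : (Mt ／ Mt.closure F).Indep I ↔ (Mt ／ F).Indep I := by
  rw [rindep_iff, rindep_iff]
  simp only [Matroid.closure_union_closure_left_eq]

theorem rk_le_of_subset {F S S' : Set ℂ} (h : S ⊆ Mt.closure (F ∪ S')) : rk F S ≤ rk F S' := by
  have hE : (Mt ／ F).E = univ \ F := by rw [Matroid.contract_ground]; rfl
  unfold rk
  rw [← (Mt ／ F).eRk_inter_ground S, ← (Mt ／ F).eRk_closure_eq S']
  apply (Mt ／ F).eRk_mono
  rw [Matroid.contract_closure_eq, hE]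
  rintro a ⟨ha, haF⟩
  exact ⟨by rw [union_comm]; exact h ha, haF.2⟩

theorem rk_mono {F S S' : Set ℂ} (h : S ⊆ S') : rk F S ≤ rk F S' := (Mt ／ F).eRk_mono h

theorem eRk_add_rk_le {F A B : Set ℂ} (hA : A ⊆ Mt.closure F) (hAB : A ⊆ B) :
    Mt.eRk A + rk F B ≤ Mt.eRk B := by
  obtain ⟨J, hJ⟩ := Mt.exists_isBasis A (by simp)
  obtain ⟨J', hJ', hJJ'⟩ := hJ.indep.subset_isBasis_of_subset (hJ.subset.trans hA) (by simp)
  obtain ⟨I, hI⟩ := (Mt ／ F).exists_isBasis' B
  have hI1 : (Mt ／ Mt.closure F).Indep I := rindep_closure_iff.2 hI.indep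
  obtain ⟨h1, h2⟩ := hJ'.contract_indep_iff.1 hI1
  have h3 : Mt.Indep (J ∪ I) := h1.subset (by
    rw [union_comm]; exact union_subset_union_right _ hJJ')
  have hdisj : Disjoint J I := h2.mono_left (hJ'.subset.trans' hJJ')
  have h4 : (J ∪ I).encard ≤ Mt.eRk B :=
    h3.encard_le_eRk_of_subset (union_subset (hJ.subset.trans hAB) hI.subset)
  rw [encard_union_eq hdisj] at h4
  unfold rk
  rw [hJ.eRk_eq_encard, hI.eRk_eq_encard]
  exact h4

theorem rindep_mono {K F X : Set ℂ} (hKF : K ⊆ Mt.closure F) (hX : (Mt ／ F).Indep X) :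
    (Mt ／ K).Indep X := by
  rw [rindep_iff] at hX ⊢
  intro i hi hc
  apply hX i hi
  rw [← Matroid.closure_union_closure_left_eq]
  exact Mt.closure_subset_closure (union_subset_union_left _ hKF) hc

theorem rk_transfer {K F X S : Set ℂ} (hKF : K ⊆ Mt.closure F) (hXfin : X.Finite)
    (hX : (Mt ／ F).Indep X) (hS : S ⊆ Mt.closure (K ∪ X)) : rk K S ≤ rk F S := by
  have hXK := rindep_mono hKF hX
  obtain ⟨I, hI⟩ := (Mt ／ K).exists_isBasis' S
  obtain ⟨I2, hI2, hII2⟩ := hI.indep.subset_isBasis'_of_subset (hI.subset.trans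
    (subset_union_left : S ⊆ S ∪ X))
  have hsub : S ∪ X ⊆ Mt.closure (K ∪ X) := union_subset hS
    (fun x hx => Mt.mem_closure_of_mem (Or.inr hx) (by simp))
  have h1 : I2.encard ≤ X.encard := by
    have h2 := rk_le_of_subset hsub
    unfold rk at h2
    rw [hI2.eRk_eq_encard, hXK.eRk_eq_encard] at h2
    exact h2
  have hXI2 : X ⊆ Mt.closure (F ∪ I2) := by
    intro x hx
    have hxE : x ∈ (Mt ／ K).E := hXK.subset_ground hx
    have h3 : x ∈ (Mt ／ K).closure I2 := by
      rw [hI2.closure_eq_closure]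
      exact (Mt ／ K).mem_closure_of_mem' (Or.inr hx) hxE
    rw [Matroid.contract_closure_eq] at h3
    rw [← Matroid.closure_union_closure_left_eq]
    refine Mt.closure_subset_closure ?_ h3.1
    rw [union_comm]
    exact union_subset_union_left _ hKF
  have h4 : X.encard ≤ rk F I2 := by
    have h5 := rk_le_of_subset hXI2
    rw [← hX.eRk_eq_encard]
    exact h5
  have hI2fin : I2.Finite := by
    rw [← encard_lt_top_iff]
    exact h1.trans_lt (encard_lt_top_iff.2 hXfin)
  have h6 : (Mt ／ F).Indep I2 := by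
    rw [Matroid.indep_iff_eRk_eq_encard_of_finite hI2fin]
    exact le_antisymm ((Mt ／ F).eRk_le_encard I2) (h1.trans h4)
  calc rk K S = I.encard := hI.eRk_eq_encard
    _ ≤ rk F S := (h6.subset hII2).encard_le_eRk_of_subset hI.subset

end Pool.Agent.H96EX
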