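import Pool.Agent.H96EX.Gen

/-!
# Exponential maps near the true one (after helper90's `EL.main`)
-/

open Set Complex Cardinal

namespace Pool.Agent.H96EX

open Pool.Agent.H96RS

theorem notMem_of_transcendental_real {x : ℝ} (hx : Transcendental ℚ x) : (x : ℂ) ∉ Mt.closure ∅ :=
  notMem_closure_empty ((transcendental_algebraMap_iff (R := ℚ) (S := ℝ) (A := ℂ)
    Complex.ofReal_injective).2 hx)

/-- every pair `(p, τ)` of transcendental real numbers near `(π, e)` is the pair of the values of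
`π` and `e` of an exponential map near the true one; when `τ = e` and `p + s e` is algebraic, this
map can be taken equal to the true one at every algebraic number -/
theorem main (s : ℝ) (hs : IsAlgebraic ℚ s) (hs0 : s ≠ 0) (F : Finset ℂ) (ε : ℝ) (hε : 0 < ε) :
    ∃ δ > 0, ∀ p τ : ℝ, Transcendental ℚ p → Transcendental ℚ τ →
      |p - Real.pi| < δ → |τ - Real.exp 1| < δ →
        ∃ E : ℂ → ℂ, ZilberExp p E ∧ E 1 = τ ∧
          (τ = Real.exp 1 → IsAlgebraic ℚ (p + s * τ) →
            ∀ a : ℂ, IsAlgebraic ℚ a → E a = Complex.exp a) ∧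
          ∀ z ∈ F, ‖E z - Complex.exp z‖ < ε := by
  obtain ⟨δ1, hδ1, h1⟩ := famC F hε
  obtain ⟨δ2, hδ2, h2⟩ := famB hs hs0 F hε
  refine ⟨min δ1 δ2, lt_min hδ1 hδ2, fun p τ hp hτ hpd hτd => ?_⟩
  by_cases hc : τ = Real.exp 1 ∧ IsAlgebraic ℚ (p + s * τ)
  · obtain ⟨hτe, hr⟩ := hc
    obtain ⟨E, hE, hEa, hEF⟩ := h2 (p + s * τ) hr (by
      have h3 : Real.pi + s * Real.exp 1 - (p + s * τ) = -(p - Real.pi) := by rw [hτe]; ring
      rw [h3, abs_neg]
      exact hpd.trans_le (min_le_right _ _))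
    have h3 : p + s * τ - s * Real.exp 1 = p := by rw [hτe]; ring
    rw [h3] at hE
    refine ⟨E, hE, ?_, fun _ _ => hEa, hEF⟩
    rw [hEa 1 isAlgebraic_one, hτe, Complex.ofReal_exp, Complex.ofReal_one]
  · obtain ⟨E, hE, hE1, hEF⟩ := h1 p τ (notMem_of_transcendental_real hp)
      (notMem_of_transcendental_real hτ)
      (hpd.trans_le (min_le_left _ _)) (hτd.trans_le (min_le_left _ _))
    exact ⟨E, hE, hE1, fun h h' => absurd ⟨h, h'⟩ hc, hEF⟩

end Pool.Agent.H96EX
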