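import Pool.Agent.H96EX.Cj

open Set Complex Cardinal
open scoped Matroid

namespace Pool.Agent.H96EX

open Pool.Agent.H96RS

variable {κ : Prop}

/-- no additive or multiplicative relation over the field generated by `C` -/
def Free (C : Set ℂ) {n : ℕ} (a b : Fin n → ℂ) : Prop :=
  ∀ m : Fin n → ℤ, m ≠ 0 →
    Transcendental (IntermediateField.adjoin ℚ C) (∑ j, (m j : ℂ) * a j) ∧
    Transcendental (IntermediateField.adjoin ℚ C) (∏ j, b j ^ m j)

/-- rotundity over the field generated by `C` -/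
def Rotund (C : Set ℂ) {n : ℕ} (a b : Fin n → ℂ) : Prop :=
  ∀ (r : ℕ) (M : Fin r → Fin n → ℤ), LinearIndependent ℤ M →
    (r : Cardinal.{0}) ≤ Algebra.trdeg (IntermediateField.adjoin ℚ C)
      (IntermediateField.adjoin (IntermediateField.adjoin ℚ C)
        (range (fun i => ∑ j, (M i j : ℂ) * a j) ∪ range (fun i => ∏ j, b j ^ M i j)))

/-- the space generated by finitely many pairs -/
noncomputable abbrev WS {n : ℕ} (w : Fin n → ℂ × ℂ) : Submodule ℚ (ℂ × ℂ) := Submodule.span ℚ (range w)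

theorem ws_closure {n : ℕ} {w : Fin n → ℂ × ℂ} {S : Set ℂ}
    (h1 : ∀ j, (w j).1 ∈ Mt.closure S) (h2 : ∀ j, exp (w j).2 ∈ Mt.closure S) :
    Nums (WS w) ⊆ Mt.closure S := by
  have h4 : ∀ v ∈ WS w, v.1 ∈ Mt.closure S ∧ exp v.2 ∈ Mt.closure S := by
    intro v hv
    induction hv using Submodule.span_induction with
    | mem v hv =>
      obtain ⟨i, rfl⟩ := hv
      exact ⟨h1 i, h2 i⟩
    | zero =>
      have h5 := cl_rat (S := S) 0
      have h6 := cl_rat (S := S) 1
      rw [Rat.cast_zero] at h5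
      rw [Rat.cast_one] at h6
      exact ⟨h5, by rw [Prod.snd_zero, exp_zero]; exact h6⟩
    | add u v _ _ h5 h6 =>
      exact ⟨cl_add h5.1 h6.1, by rw [Prod.snd_add, exp_add]; exact cl_mul h5.2 h6.2⟩
    | smul q v _ h5 => exact ⟨smul_mem q h5.1, exp_smul_mem q h5.2⟩
  rintro t ⟨v, hv, rfl | rfl⟩
  · exact (h4 v hv).1
  · exact (h4 v hv).2

/-- an integral multiple of an element of the space -/
theorem ws_scale {n : ℕ} {w : Fin n → ℂ × ℂ} {v : ℂ × ℂ} (hv : v ∈ WS w) (hv0 : v ≠ 0) :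
    ∃ (b : ℤ) (m : Fin n → ℤ), b ≠ 0 ∧ m ≠ 0 ∧ ((b : ℤ) : ℚ) • v = ∑ j, ((m j : ℤ) : ℚ) • w j := by
  obtain ⟨c, hc⟩ := (Submodule.mem_span_range_iff_exists_fun ℚ).1 hv
  obtain ⟨b, M, hb, hM⟩ := exists_scale (r := 1) (fun _ => c)
  refine ⟨b, M 0, hb, ?_, ?_⟩
  · intro h0
    apply hv0
    rw [← hc]
    refine Finset.sum_eq_zero fun j _ => ?_
    have h1 := hM 0 j
    rw [h0] at h1
    have hbq : (b : ℚ) ≠ 0 := by exact_mod_cast hb
    have h2 : c j = 0 := by
      rcases mul_eq_zero.1 h1.symm with h | h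
      · exact absurd h hbq
      · exact h
    rw [h2, zero_smul]
  · rw [← hc, Finset.smul_sum]
    refine Finset.sum_congr rfl fun j _ => ?_
    rw [hM 0 j, smul_smul]

/-- the space generated by generic points of a rotund and free variety is rotund and free -/
theorem rot_main {C F : Set ℂ} (hCF : C ⊆ Mt.closure F) {k : ℕ} {y x : Fin k → ℂ}
    (hx : (Mt ／ F).Indep (range x)) (φ : EC C y →ₐ[QC C] ℂ)
    (hφ : ∀ u, φ u ∈ Mt.closure (C ∪ range x)) {n : ℕ} (a b : Fin n → EC C y)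
    (hfree : Free C (fun j => (a j : ℂ)) (fun j => (b j : ℂ)))
    (hrot : Rotund C (fun j => (a j : ℂ)) (fun j => (b j : ℂ))) (w : Fin n → ℂ × ℂ)
    (hw1 : ∀ j, (w j).1 = φ (a j)) (hw2 : ∀ j, exp (w j).2 = φ (b j)) :
    (∀ v ∈ WS w, v ≠ 0 → v.1 ∉ Mt.closure F ∧ exp v.2 ∉ Mt.closure F) ∧
      ∀ Y : Submodule ℚ (ℂ × ℂ), Y ≤ WS w → (Module.finrank ℚ Y : ℕ∞) ≤ rk F (Nums Y) := by
  have hval : ∀ S : Set (EC C y), rk C ((fun u : EC C y => (u : ℂ)) '' S) ≤ rk F (φ '' S) := by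
    intro S
    refine (rk_copy φ S).trans (rk_transfer hCF (finite_range x) hx ?_)
    rintro _ ⟨u, -, rfl⟩
    exact hφ u
  have hs1 : ∀ m : Fin n → ℤ, φ (∑ j, (m j : EC C y) * a j) = (∑ j, ((m j : ℤ) : ℚ) • w j).1 := by
    intro m
    rw [sum_fst, map_sum]
    refine Finset.sum_congr rfl fun j _ => ?_
    rw [map_mul, map_intCast, hw1]
  have hs2 : ∀ m : Fin n → ℤ, φ (∏ j, b j ^ m j) = exp (∑ j, ((m j : ℤ) : ℚ) • w j).2 := by
    intro m
    rw [exp_sum_snd, map_prod]
    refine Finset.prod_congr rfl fun j _ => ?_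
    rw [map_zpow₀, hw2]
  have hv1 : ∀ m : Fin n → ℤ, ((∑ j, (m j : EC C y) * a j : EC C y) : ℂ) = ∑ j, (m j : ℂ) * (a j : ℂ) := by
    intro m
    push_cast
    rfl
  have hv2 : ∀ m : Fin n → ℤ, ((∏ j, b j ^ m j : EC C y) : ℂ) = ∏ j, (b j : ℂ) ^ m j := by
    intro m
    push_cast
    rfl
  constructor
  · intro v hv hv0
    obtain ⟨c, m, hc, hm, h1⟩ := ws_scale hv hv0
    have hcq : ((c : ℤ) : ℚ) ≠ 0 := by exact_mod_cast hc
    obtain ⟨h2, h3⟩ := hfree m hm
    constructor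
    · intro hcl
      have h4 := hval {∑ j, (m j : EC C y) * a j}
      rw [image_singleton, image_singleton, hs1, hv1, ← h1] at h4
      exact notMem_of_one_le_rk ((one_le_rk_of_notMem (notMem_of_transcendental h2)).trans h4)
        (by rw [Prod.smul_fst]; exact smul_mem _ hcl)
    · intro hcl
      have h4 := hval {∏ j, b j ^ m j}
      rw [image_singleton, image_singleton, hs2, hv2, ← h1] at h4
      exact notMem_of_one_le_rk ((one_le_rk_of_notMem (notMem_of_transcendental h3)).trans h4)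
        (by rw [Prod.smul_snd]; exact exp_smul_mem _ hcl)
  · intro Y hY
    have hfd : FiniteDimensional ℚ (WS w) := FiniteDimensional.span_of_finite ℚ (Set.finite_range w)
    have hfY : FiniteDimensional ℚ Y := Submodule.finiteDimensional_of_le hY
    set B := Module.finBasis ℚ Y with hB
    have hex : ∀ i, ∃ c : Fin n → ℚ, ∑ j, c j • w j = ((B i : Y) : ℂ × ℂ) := fun i =>
      (Submodule.mem_span_range_iff_exists_fun ℚ).1 (hY (B i).2)
    choose q hq using hex
    obtain ⟨c, M, hc, hM⟩ := exists_scale q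
    have hcq : ((c : ℤ) : ℚ) ≠ 0 := by exact_mod_cast hc
    have hMi : ∀ i, ∑ j, ((M i j : ℤ) : ℚ) • w j = ((c : ℤ) : ℚ) • ((B i : Y) : ℂ × ℂ) := by
      intro i
      rw [← hq i, Finset.smul_sum]
      refine Finset.sum_congr rfl fun j _ => ?_
      rw [hM i j, smul_smul]
    have hli : LinearIndependent ℤ M := by
      rw [Fintype.linearIndependent_iff]
      intro g hg i
      have h1 : ∑ i, ((g i : ℤ) : ℚ) • (((c : ℤ) : ℚ) • ((B i : Y) : ℂ × ℂ)) = 0 := by
        have h2 : ∀ i, ((g i : ℤ) : ℚ) • (((c : ℤ) : ℚ) • ((B i : Y) : ℂ × ℂ)) =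
            ∑ j, (((g i * M i j : ℤ)) : ℚ) • w j := by
          intro i
          rw [← hMi i, Finset.smul_sum]
          refine Finset.sum_congr rfl fun j _ => ?_
          rw [smul_smul]; push_cast; rfl
        simp_rw [h2]
        rw [Finset.sum_comm]
        refine Finset.sum_eq_zero fun j _ => ?_
        rw [← Finset.sum_smul]
        have h3 : ∑ i, g i * M i j = 0 := by
          have := congrFun hg j
          simpa [Finset.sum_apply] using this
        have h4 : (∑ i, ((g i * M i j : ℤ) : ℚ)) = 0 := by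
          exact_mod_cast h3
        rw [h4, zero_smul]
      have h2 : ∑ i, (((g i : ℤ) : ℚ) * ((c : ℤ) : ℚ)) • B i = 0 := by
        apply Subtype.ext
        rw [Submodule.coe_sum]
        simpa [smul_smul] using h1
      have h3 := (Fintype.linearIndependent_iff.1 B.linearIndependent) _ h2 i
      rcases mul_eq_zero.1 h3 with h | h
      · exact_mod_cast h
      · exact absurd h hcq
    have h1 := le_rk_of_trdeg (hrot _ M hli)
    set S : Set (EC C y) := range (fun i => ∑ j, (M i j : EC C y) * a j) ∪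
      range (fun i => ∏ j, b j ^ M i j) with hS
    have h2 : (fun u : EC C y => (u : ℂ)) '' S =
        range (fun i => ∑ j, (M i j : ℂ) * (a j : ℂ)) ∪ range (fun i => ∏ j, (b j : ℂ) ^ M i j) := by
      rw [hS, image_union, ← range_comp, ← range_comp]
      congr 2
      · funext i; exact hv1 (M i)
      · funext i; exact hv2 (M i)
    rw [← h2] at h1
    refine (h1.trans (hval S)).trans (rk_mono ?_)
    rintro _ ⟨u, (⟨i, rfl⟩ | ⟨i, rfl⟩), rfl⟩
    · refine ⟨((c : ℤ) : ℚ) • ((B i : Y) : ℂ × ℂ), Y.smul_mem _ (B i).2, Or.inl ?_⟩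
      rw [← hMi i]; exact hs1 (M i)
    · refine ⟨((c : ℤ) : ℚ) • ((B i : Y) : ℂ × ℂ), Y.smul_mem _ (B i).2, Or.inr ?_⟩
      rw [← hMi i]; exact hs2 (M i)

end Pool.Agent.H96EX
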