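import Pool.Agent.H96EX.Sea

open Set Complex Cardinal
open scoped Matroid

namespace Pool.Agent.H96EX

open Pool.Agent.H96RS

variable {κ : Prop}

/-- conjugation on pairs -/
noncomputable def cmap : (ℂ × ℂ) ≃ₗ[ℚ] (ℂ × ℂ) := cj.toLinearEquiv.prodCongr cj.toLinearEquiv

theorem cmap_apply (v : ℂ × ℂ) : cmap v = (starRingEnd ℂ v.1, starRingEnd ℂ v.2) := rfl

theorem cmap_cmap (v : ℂ × ℂ) : cmap (cmap v) = v := by
  rw [cmap_apply, cmap_apply]; simp

theorem map_cmap_cmap (Y : Submodule ℚ (ℂ × ℂ)) :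
    (Y.map (cmap : (ℂ × ℂ) →ₗ[ℚ] (ℂ × ℂ))).map (cmap : (ℂ × ℂ) →ₗ[ℚ] (ℂ × ℂ)) = Y := by
  ext v
  constructor
  · rintro ⟨_, ⟨u, hu, rfl⟩, rfl⟩
    have : (cmap : (ℂ × ℂ) →ₗ[ℚ] (ℂ × ℂ)) ((cmap : (ℂ × ℂ) →ₗ[ℚ] (ℂ × ℂ)) u) = u := cmap_cmap u
    rw [this]; exact hu
  · intro hv
    exact ⟨cmap v, ⟨v, hv, rfl⟩, cmap_cmap v⟩

theorem nums_cmap (Y : Submodule ℚ (ℂ × ℂ)) :
    Nums (Y.map (cmap : (ℂ × ℂ) →ₗ[ℚ] (ℂ × ℂ))) = (fun z => starRingEnd ℂ z) '' Nums Y := by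
  ext t
  constructor
  · rintro ⟨_, ⟨v, hv, rfl⟩, h | h⟩
    · exact ⟨v.1, ⟨v, hv, Or.inl rfl⟩, h.symm⟩
    · refine ⟨exp v.2, ⟨v, hv, Or.inr rfl⟩, ?_⟩
      rw [h]
      show starRingEnd ℂ (exp v.2) = exp (starRingEnd ℂ v.2)
      rw [exp_conj]
  · rintro ⟨_, ⟨v, hv, rfl | rfl⟩, rfl⟩
    · exact ⟨cmap v, ⟨v, hv, rfl⟩, Or.inl rfl⟩
    · refine ⟨cmap v, ⟨v, hv, rfl⟩, Or.inr ?_⟩
      show starRingEnd ℂ (exp v.2) = exp (starRingEnd ℂ v.2)
      rw [exp_conj]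

theorem exp_cmap (v : ℂ × ℂ) : exp (cmap v).2 = starRingEnd ℂ (exp v.2) := by
  show exp (starRingEnd ℂ v.2) = starRingEnd ℂ (exp v.2)
  rw [exp_conj]

theorem sup_card {G W : Submodule ℚ (ℂ × ℂ)} (hW : #W ≤ ℵ₀) :
    #(G ⊔ W : Submodule ℚ (ℂ × ℂ)) ≤ max #G ℵ₀ := by
  have h1 : #(G ⊔ W : Submodule ℚ (ℂ × ℂ)) ≤ #(G × W) := by
    refine Cardinal.mk_le_of_surjective (f := fun p : G × W =>
      (⟨p.1.1 + p.2.1, Submodule.add_mem_sup p.1.2 p.2.2⟩ :
        (G ⊔ W : Submodule ℚ (ℂ × ℂ)))) ?_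
    rintro ⟨v, hv⟩
    obtain ⟨u, hu, w, hw, rfl⟩ := Submodule.mem_sup.1 hv
    exact ⟨(⟨u, hu⟩, ⟨w, hw⟩), rfl⟩
  refine h1.trans ?_
  rw [Cardinal.mk_prod, Cardinal.lift_id, Cardinal.lift_id]
  refine (mul_le_mul' le_rfl hW).trans ?_
  refine (Cardinal.mul_le_max _ _).trans ?_
  simp

theorem ws_card {n : ℕ} (w : Fin n → ℂ × ℂ) : #(WS w) ≤ ℵ₀ := by
  have h1 : #(WS w) ≤ #(Fin n → ℚ) := by
    refine Cardinal.mk_le_of_surjective (f := fun c : Fin n → ℚ =>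
      (⟨∑ j, c j • w j, Submodule.sum_mem _ fun j _ => Submodule.smul_mem _ _
        (Submodule.subset_span ⟨j, rfl⟩)⟩ : WS w)) ?_
    rintro ⟨v, hv⟩
    obtain ⟨c, hc⟩ := (Submodule.mem_span_range_iff_exists_fun ℚ).1 hv
    exact ⟨c, Subtype.ext hc⟩
  refine h1.trans ?_
  exact Cardinal.mk_le_aleph0

theorem map_card {W : Submodule ℚ (ℂ × ℂ)} (hW : #W ≤ ℵ₀) :
    #(W.map (cmap : (ℂ × ℂ) →ₗ[ℚ] (ℂ × ℂ))) ≤ ℵ₀ := by
  refine (Cardinal.mk_le_of_surjective (f := fun v : W =>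
    (⟨cmap v.1, v.1, v.2, rfl⟩ : W.map (cmap : (ℂ × ℂ) →ₗ[ℚ] (ℂ × ℂ)))) ?_).trans hW
  rintro ⟨_, v, hv, rfl⟩
  exact ⟨⟨v, hv⟩, rfl⟩

theorem cj_image_subset {F : Set ℂ} (hF : (fun z => starRingEnd ℂ z) '' F ⊆ F) {a : ℂ}
    (h : starRingEnd ℂ a ∈ Mt.closure F) : a ∈ Mt.closure F := by
  have h1 := cl_cj h
  rw [Complex.conj_conj] at h1
  exact Mt.closure_subset_closure hF h1

theorem nums_cj {ω : ℂ} {τ : ℝ} {G : Submodule ℚ (ℂ × ℂ)} (h : Good κ ω τ G) {t : ℂ} (ht : t ∈ Nums G) :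
    starRingEnd ℂ t ∈ Nums G := by
  obtain ⟨v, hv, rfl | rfl⟩ := ht
  · exact ⟨_, h.cj v hv, Or.inl rfl⟩
  · exact ⟨_, h.cj v hv, Or.inr (exp_conj v.2).symm⟩

/-- one step of strong exponential-algebraic closedness -/
theorem Good.closed_step {ω : ℂ} {τ : ℝ} {G : Submodule ℚ (ℂ × ℂ)} (h : Good κ ω τ G) (hc : #G < 𝔠)
    {C : Set ℂ} (hC : C.Finite) {n : ℕ} (a b : Fin n → ℂ) (hb : ∀ j, b j ≠ 0)
    (hfree : Free C a b) (hrot : Rotund C a b) :
    ∃ G' : Submodule ℚ (ℂ × ℂ), Good κ ω τ G' ∧ G ≤ G' ∧ #G' ≤ max #G ℵ₀ ∧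
      ∃ w : Fin n → ℂ × ℂ, (∀ j, w j ∈ G') ∧
        ∀ P : MvPolynomial (Fin n ⊕ Fin n) (IntermediateField.adjoin ℚ C),
          MvPolynomial.aeval (Sum.elim a b) P = 0 ↔
          MvPolynomial.aeval (Sum.elim (fun j => (w j).1) (fun j => exp (w j).2)) P = 0 := by
  classical
  set F : Set ℂ := Nums G ∪ (C ∪ (fun z => starRingEnd ℂ z) '' C) with hFdef
  have hFc : #F < 𝔠 := by
    refine (Cardinal.mk_union_le _ _).trans_lt ?_
    refine Cardinal.add_lt_of_lt Cardinal.aleph0_le_continuum ?_ ?_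
    · exact (nums_card G).trans_lt (max_lt hc Cardinal.aleph0_lt_continuum)
    · exact (hC.union (hC.image _)).lt_aleph0.trans Cardinal.aleph0_lt_continuum
  have hFcj : (fun z => starRingEnd ℂ z) '' F ⊆ F := by
    rintro _ ⟨t, (ht | ht | ⟨s, hs, rfl⟩), rfl⟩
    · exact Or.inl (nums_cj h ht)
    · exact Or.inr (Or.inr ⟨t, ht, rfl⟩)
    · refine Or.inr (Or.inl ?_)
      simpa using hs
  have hsubF : ∀ t ∈ F, t ∈ Mt.closure F := fun t ht => Mt.mem_closure_of_mem ht (by simp)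
  have hCF : C ⊆ Mt.closure F := fun t ht => hsubF t (Or.inr (Or.inl ht))
  have hGF : Nums G ⊆ Mt.closure F := fun t ht => hsubF t (Or.inl ht)
  -- a transcendence basis of the given numbers over the field generated by `C`
  obtain ⟨T, hT⟩ := (AlgebraicIndependent.matroid (QC C) ℂ).exists_isBasis (range a ∪ range b) (by simp)
  have hTf : T.Finite := ((finite_range a).union (finite_range b)).subset hT.subset
  have : Fintype T := hTf.fintype
  let y : Fin (Fintype.card T) → ℂ := fun i => ((Fintype.equivFin T).symm i : ℂ)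
  have hyr : range y = T := by
    ext t
    constructor
    · rintro ⟨i, rfl⟩; exact ((Fintype.equivFin T).symm i).2
    · intro ht; exact ⟨Fintype.equivFin T ⟨t, ht⟩, by simp [y]⟩
  have hy : AlgebraicIndependent (QC C) y := by
    have h1 : AlgebraicIndependent (QC C) ((↑) : T → ℂ) := hT.indep
    exact h1.comp _ (Fintype.equivFin T).symm.injective
  obtain ⟨x, hxinj, hxF, hxF1⟩ := exists_generic hFc (Fintype.card T)
  have hx : AlgebraicIndependent (QC C) x := by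
    have h1 : AlgebraicIndependent (QC C) ((↑) : range x → ℂ) :=
      indep_over_iff.2 (rindep_mono hCF hxF)
    exact h1.comp (fun i => (⟨x i, i, rfl⟩ : range x))
      (fun i j hij => hxinj (congrArg Subtype.val hij))
  obtain ⟨φ, hφ⟩ := exists_copy hy hx
  have hφinj : Function.Injective φ := φ.toRingHom.injective
  have hmem : ∀ t ∈ range a ∪ range b, t ∈ EC C y := by
    intro t ht
    have h1 : t ∈ (AlgebraicIndependent.matroid (QC C) ℂ).closure T := by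
      rw [hT.closure_eq_closure]
      exact (AlgebraicIndependent.matroid (QC C) ℂ).mem_closure_of_mem ht (by simp)
    rw [AlgebraicIndependent.matroid_closure_eq] at h1
    rw [mem_algebraicClosure_iff, IntermediateField.isAlgebraic_adjoin_iff, hyr]
    exact h1
  let a' : Fin n → EC C y := fun j => ⟨a j, hmem _ (Or.inl ⟨j, rfl⟩)⟩
  let b' : Fin n → EC C y := fun j => ⟨b j, hmem _ (Or.inr ⟨j, rfl⟩)⟩
  have hb' : ∀ j, φ (b' j) ≠ 0 := by
    intro j h0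
    apply hb j
    have h1 : b' j = 0 := hφinj (by rw [h0, map_zero])
    exact congrArg Subtype.val h1
  let w : Fin n → ℂ × ℂ := fun j => (φ (a' j), Complex.log (φ (b' j)))
  have hw2 : ∀ j, exp (w j).2 = φ (b' j) := fun j => exp_log (hb' j)
  obtain ⟨hfr, hro⟩ := rot_main hCF hxF φ hφ a' b' hfree hrot w (fun j => rfl) hw2
  have hfd : FiniteDimensional ℚ (WS w) := FiniteDimensional.span_of_finite ℚ (Set.finite_range w)
  have hWcl : Nums (WS w) ⊆ Mt.closure (C ∪ range x) :=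
    ws_closure (fun j => hφ (a' j)) (fun j => by rw [hw2]; exact hφ (b' j))
  -- the conjugate space
  set W' : Submodule ℚ (ℂ × ℂ) := (WS w).map (cmap : (ℂ × ℂ) →ₗ[ℚ] (ℂ × ℂ)) with hW'
  have hfd' : FiniteDimensional ℚ W' := inferInstance
  set F1 : Set ℂ := F ∪ range x with hF1
  have hFF1 : F ⊆ Mt.closure F1 := fun t ht => Mt.mem_closure_of_mem (Or.inl ht) (by simp)
  have hcl1 : Mt.closure (C ∪ range x) ⊆ Mt.closure F1 := by
    have h1 : C ∪ range x ⊆ Mt.closure F1 := by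
      rintro t (ht | ht)
      · exact hFF1 (Or.inr (Or.inl ht))
      · exact Mt.mem_closure_of_mem (Or.inr ht) (by simp)
    have h2 := Mt.closure_subset_closure h1
    rwa [Mt.closure_closure] at h2
  have hcl2 : ∀ t ∈ Mt.closure (C ∪ range x),
      starRingEnd ℂ t ∈ Mt.closure (F ∪ range fun i => starRingEnd ℂ (x i)) := by
    intro t ht
    refine Mt.closure_subset_closure ?_ (cl_cj ht)
    rintro _ ⟨s, (hs | ⟨i, rfl⟩), rfl⟩
    · exact Or.inl (Or.inr (Or.inr ⟨s, hs, rfl⟩))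
    · exact Or.inr ⟨i, rfl⟩
  have htr : ∀ S : Set ℂ, S ⊆ Mt.closure (C ∪ range x) →
      rk F S ≤ rk F1 ((fun z => starRingEnd ℂ z) '' S) := by
    intro S hS
    refine (rk_cj hFcj S).trans (rk_transfer hFF1 (finite_range _) hxF1 ?_)
    rintro _ ⟨t, ht, rfl⟩
    exact hcl2 t (hS ht)
  have hfr' : ∀ v ∈ W', v ≠ 0 → v.1 ∉ Mt.closure F1 ∧ exp v.2 ∉ Mt.closure F1 := by
    rintro _ ⟨v, hv, rfl⟩ hv0
    have hv0' : v ≠ 0 := by
      rintro rfl
      exact hv0 (map_zero _)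
    obtain ⟨h1, h2⟩ := hfr v hv hv0'
    constructor
    · have h3 := htr {v.1} (singleton_subset_iff.2 (hWcl ⟨v, hv, Or.inl rfl⟩))
      rw [image_singleton] at h3
      exact notMem_of_one_le_rk ((one_le_rk_of_notMem h1).trans h3)
    · have h3 := htr {exp v.2} (singleton_subset_iff.2 (hWcl ⟨v, hv, Or.inr rfl⟩))
      rw [image_singleton] at h3
      have h4 := notMem_of_one_le_rk ((one_le_rk_of_notMem h2).trans h3)
      intro h5
      apply h4
      have h6 := exp_cmap v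
      rw [← h6]
      exact h5
  have hro' : ∀ Y : Submodule ℚ (ℂ × ℂ), Y ≤ W' →
      (Module.finrank ℚ Y : ℕ∞) ≤ rk F1 (Nums Y) := by
    intro Y hY
    set Y0 : Submodule ℚ (ℂ × ℂ) := Y.map (cmap : (ℂ × ℂ) →ₗ[ℚ] (ℂ × ℂ)) with hY0
    have hY0W : Y0 ≤ WS w := by
      have h1 := Submodule.map_mono (f := (cmap : (ℂ × ℂ) →ₗ[ℚ] (ℂ × ℂ))) hY
      rw [hW', map_cmap_cmap] at h1
      exact h1
    have hfin : Module.finrank ℚ Y0 = Module.finrank ℚ Y :=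
      LinearEquiv.finrank_map_eq cmap Y
    have h1 := hro Y0 hY0W
    have h2 := htr (Nums Y0) ((Nums_mono hY0W).trans hWcl)
    rw [← nums_cmap, hY0, map_cmap_cmap, ← hY0] at h2
    rw [← hfin]
    exact h1.trans h2
  have hP1 : PGood κ ω (G ⊔ WS w) := (PGood.of_good h).extW hGF hfr hro
  have hG1F1 : Nums (G ⊔ WS w) ⊆ Mt.closure F1 := by
    have hg : ∀ u ∈ G, u.1 ∈ Mt.closure F1 ∧ exp u.2 ∈ Mt.closure F1 := fun u hu =>
      ⟨hFF1 (Or.inl ⟨u, hu, Or.inl rfl⟩), hFF1 (Or.inl ⟨u, hu, Or.inr rfl⟩)⟩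
    have hw : ∀ u ∈ WS w, u.1 ∈ Mt.closure F1 ∧ exp u.2 ∈ Mt.closure F1 := fun u hu =>
      ⟨hcl1 (hWcl ⟨u, hu, Or.inl rfl⟩), hcl1 (hWcl ⟨u, hu, Or.inr rfl⟩)⟩
    rintro t ⟨v, hv, ht⟩
    obtain ⟨u, hu, u', hu', rfl⟩ := Submodule.mem_sup.1 hv
    rcases ht with rfl | rfl
    · exact cl_add (hg u hu).1 (hw u' hu').1
    · rw [Prod.snd_add, exp_add]; exact cl_mul (hg u hu).2 (hw u' hu').2
  have hP2 : PGood κ ω ((G ⊔ WS w) ⊔ W') := hP1.extW hG1F1 hfr' hro'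
  refine ⟨(G ⊔ WS w) ⊔ W', ⟨hP2.fn, ?_, (le_sup_left : G ≤ G ⊔ WS w).trans le_sup_left h.one,
    hP2.om, hP2.ker, hP2.sch⟩, (le_sup_left : G ≤ G ⊔ WS w).trans le_sup_left, ?_, w, ?_, ?_⟩
  · intro v hv
    obtain ⟨v1, hv1, v2, hv2, rfl⟩ := Submodule.mem_sup.1 hv
    obtain ⟨u, hu, u', hu', rfl⟩ := Submodule.mem_sup.1 hv1
    obtain ⟨u'', hu'', rfl⟩ := hv2
    have h1 : ((starRingEnd ℂ (u + u' + (cmap : (ℂ × ℂ) →ₗ[ℚ] (ℂ × ℂ)) u'').1,
        starRingEnd ℂ (u + u' + (cmap : (ℂ × ℂ) →ₗ[ℚ] (ℂ × ℂ)) u'').2) : ℂ × ℂ) =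
        ((starRingEnd ℂ u.1, starRingEnd ℂ u.2) + u'') + cmap u' := by
      have h2 : cmap (u + u' + cmap u'') = cmap u + cmap u' + cmap (cmap u'') := by
        rw [map_add, map_add]
      rw [cmap_cmap] at h2
      have h3 : cmap (u + u' + cmap u'') = (cmap u + u'') + cmap u' := by rw [h2]; abel
      exact h3
    rw [h1]
    refine Submodule.add_mem_sup (Submodule.add_mem_sup (h.cj u hu) hu'') ?_
    exact ⟨u', hu', rfl⟩
  · refine (sup_card (map_card (ws_card w))).trans (max_le ?_ (le_max_right _ _))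
    exact sup_card (ws_card w)
  · intro j
    exact (le_sup_left : G ⊔ WS w ≤ _) ((le_sup_right : WS w ≤ G ⊔ WS w) (Submodule.subset_span ⟨j, rfl⟩))
  · intro P
    have h1 : MvPolynomial.aeval (Sum.elim a b) P =
        ((MvPolynomial.aeval (Sum.elim a' b') P : EC C y) : ℂ) := by
      have h2 : Sum.elim a b = fun i => ((EC C y).val.restrictScalars (QC C)) (Sum.elim a' b' i) := by
        funext i; cases i <;> rfl
      rw [h2]
      exact (MvPolynomial.comp_aeval_apply (Sum.elim a' b') ((EC C y).val.restrictScalars (QC C)) P).symm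
    have h3 : MvPolynomial.aeval (Sum.elim (fun j => (w j).1) (fun j => exp (w j).2)) P =
        φ (MvPolynomial.aeval (Sum.elim a' b') P) := by
      have h2 : Sum.elim (fun j => (w j).1) (fun j => exp (w j).2) = fun i => φ (Sum.elim a' b' i) := by
        funext i
        cases i with
        | inl j => rfl
        | inr j => exact hw2 j
      rw [h2]
      exact (MvPolynomial.comp_aeval_apply (Sum.elim a' b') φ P).symm
    rw [h1, h3]
    constructor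
    · intro h4
      have h5 : (MvPolynomial.aeval (Sum.elim a' b') P : EC C y) = 0 := Subtype.ext h4
      rw [h5, map_zero]
    · intro h4
      have h5 : (MvPolynomial.aeval (Sum.elim a' b') P : EC C y) = 0 :=
        hφinj (by rw [h4, map_zero])
      rw [h5]; rfl

end Pool.Agent.H96EX
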